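import Pool.Agent.N608.GNX.IIXa

/-!
# Project GN (helper782), stage 2: the bilinear part of Vaughan's identity over classes (helper608).
-/

set_option autoImplicit false

namespace Pool.Agent.N608.GNX

open Finset
open Pool.Agent.H304R3.HK (UH bb LamK)
open Pool.Agent.N782.GN Pool.Agent.N277.GN

open Classical in
theorem iix (hm : S_MUB) (_h0 : S_DVB) (h1 : S_TX) (h2 : S_DIV) : S_IIX := by
  intro ε A q0 hε hq0
  obtain ⟨CT, hCT, hT⟩ := h1 (ε / 2) (2 * (2 * A + 5)) (2 * A + 6) q0 (by linarith) hq0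
  obtain ⟨C1, hC1, hB⟩ := box h2
  obtain ⟨M0, hM0, hbig⟩ := exists_big hε A
  set K := 216 * C1 + 204 * C1 + 864 * 2 ^ (2 * A + 5) * Real.sqrt CT +
      144 * C1 * (16 * 2 ^ (2 * A + 6) + 3) with hK
  have hlogM0 : 0 < Real.log M0 := Real.log_pos (by linarith)
  set K' := (9 * (2 * M0 ^ 2)) * ((9 * (2 * M0 ^ 2)) * (12 * Real.log M0)) * (Real.log M0) ^ A with hK'
  have hKp : 0 < K := by positivity
  have hKp' : 0 < K' := by positivity
  refine ⟨K + K', by positivity, ?_⟩
  intro M L Y W b0 v0 lam hM hcop hL1 hL2 hY hW hlam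
  letI : Cls := ⟨q0, b0, v0⟩
  have hTT : TT (ε / 2) CT (2 * A + 5) (2 * A + 6) := TT_of hCT hcop hT
  have hMp : 0 < M := by linarith
  have hlog : 0 < Real.log M := Real.log_pos (by linarith)
  have hL0 : 1 ≤ L := by
    refine le_trans ?_ hL1
    exact Real.one_le_rpow (by linarith) (by linarith)
  have hε4 : ε ≤ 1 / 4 := by
    have e1 := hL1.trans hL2
    rw [Real.rpow_le_rpow_left_iff (by linarith)] at e1
    linarith
  have e0 : 0 ≤ L * M / (Real.log M) ^ A := by positivity
  have e3 : (K + K') * L * M / (Real.log M) ^ A = K * (L * M / (Real.log M) ^ A) +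
      K' * (L * M / (Real.log M) ^ A) := by ring
  rw [e3]
  have eSI : ∑ b ∈ (bl (2 * M ^ 2)).filter (fun b => Y < nz b ∧ ((q0 : ℕ) : ZI) ∣ b - b0),
      ∑ v ∈ (bl (2 * M ^ 2)).filter (fun v => ((q0 : ℕ) : ZI) ∣ v - v0), mu b * aW W v * Fz lam M (b * v) =
      SI M Y W lam := by
    unfold SI
    rw [← filter_filter, sum_filter]
    apply sum_congr rfl
    intro b _
    rw [sum_filter]
    by_cases hb : ((q0 : ℕ) : ZI) ∣ b - b0
    · rw [if_pos hb]
      apply sum_congr rfl
      intro v _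
      have e1 : mub b = mu b := if_pos hb
      rw [e1]
      by_cases hv : ((q0 : ℕ) : ZI) ∣ v - v0
      · rw [if_pos hv]
        have e2 : ax W v = aW W v := if_pos hv
        rw [e2]
      · rw [if_neg hv]
        have e2 : ax W v = 0 := if_neg hv
        rw [e2]
        ring
    · rw [if_neg hb]
      have e1 : mub b = 0 := if_neg hb
      rw [e1]
      symm
      apply sum_eq_zero
      intro v _
      ring
  rw [eSI]
  by_cases hc : M0 ≤ M
  · have key := main_large hm hCT hTT hC1 hB (⟨hbig M hc, hε, hε4, hL1, hL2, hY, hW, hlam⟩ : Par ε A M L Y W lam)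
    have : 0 ≤ K' * (L * M / (Real.log M) ^ A) := by positivity
    linarith
  · have hc' := (not_le.1 hc).le
    have key := SI_trivial hm (Y := Y) (W := W) hM hlam
    have l1 : Real.log M ≤ Real.log M0 := Real.log_le_log hMp hc'
    have l2 : (9 * (2 * M ^ 2)) * ((9 * (2 * M ^ 2)) * (12 * Real.log M)) ≤
        (9 * (2 * M0 ^ 2)) * ((9 * (2 * M0 ^ 2)) * (12 * Real.log M0)) := by
      gcongr
    have l3 : (9 * (2 * M0 ^ 2)) * ((9 * (2 * M0 ^ 2)) * (12 * Real.log M0)) ≤
        K' * (L * M / (Real.log M) ^ A) := by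
      rw [hK', mul_assoc ((9 * (2 * M0 ^ 2)) * ((9 * (2 * M0 ^ 2)) * (12 * Real.log M0)))]
      apply le_mul_of_one_le_right (by positivity)
      rw [← mul_div_assoc, le_div_iff₀ (by positivity), one_mul]
      have l4 : (Real.log M) ^ A ≤ (Real.log M0) ^ A := pow_le_pow_left₀ hlog.le l1 A
      have l5 : 1 ≤ L * M := by nlinarith
      nlinarith [pow_pos hlogM0 A]
    have : 0 ≤ K * (L * M / (Real.log M) ^ A) := by positivity
    linarith

end Pool.Agent.N608.GNX
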