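import Pool.Agent.N782.GN.StmX
import Pool.Agent.N277.GN.IIe

/-!
# Project GN (helper782), stage 2: the bilinear part of Vaughan's identity over classes (helper608).

Adaptation of `Pool.Agent.N277.GN.II*` (helper277).
-/

set_option autoImplicit false
set_option linter.unusedSectionVars false

namespace Pool.Agent.N608.GNX

open Finset
open Pool.Agent.H304R3.HK (UH bb LamK)
open Pool.Agent.N782.GN Pool.Agent.N277.GN

/-- the classes -/
class Cls where
  q0 : ℕ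
  b0 : ZI
  v0 : ZI

variable [Cls]

open Classical in
/-- the weight `be g w` for `g w ≡ b₀` -/
noncomputable def bx (g : ℕ) (w : ZI) : ℝ :=
  if ((Cls.q0 : ℕ) : ZI) ∣ ((g : ℕ) : ZI) * w - Cls.b0 then be g w else 0

open Classical in
/-- the weight `aW W v` for `v ≡ v₀` -/
noncomputable def ax (W : ℝ) (v : ZI) : ℝ :=
  if ((Cls.q0 : ℕ) : ZI) ∣ v - Cls.v0 then aW W v else 0

open Classical in
/-- the Moebius function on the class of `b₀` -/
noncomputable def mub (b : ZI) : ℝ :=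
  if ((Cls.q0 : ℕ) : ZI) ∣ b - Cls.b0 then mu b else 0

theorem abs_bx_le (g : ℕ) (w : ZI) : |bx g w| ≤ 1 := by
  unfold bx
  split_ifs
  · exact abs_be_le g w
  · simp

theorem abs_mub_le (b : ZI) : |mub b| ≤ 1 := by
  unfold mub
  split_ifs
  · exact abs_mu_le b
  · simp

theorem ax_nonneg (hm : S_MUB) (W : ℝ) (v : ZI) : 0 ≤ ax W v := by
  unfold ax
  split_ifs
  · exact aW_nonneg hm W v
  · exact le_rfl

theorem ax_le (hm : S_MUB) (W : ℝ) {v : ZI} (hv : v ≠ 0) : ax W v ≤ 4 * Real.log (nz v) := by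
  unfold ax
  split_ifs
  · exact aW_le hm W hv
  · exact (aW_nonneg hm W v).trans (aW_le hm W hv)

theorem ax_zero (W : ℝ) {v : ZI} (hv : nz v ≤ W) : ax W v = 0 := by
  unfold ax
  rw [aW_zero W hv, ite_self]

/-- decomposition according to the content -/
theorem content_sumx (hm : S_MUB) (X Y : ℝ) (F : ZI → ℝ) (N : ℕ) (hN : Real.sqrt X ≤ N) :
    ∑ b ∈ bq Y X, mub b * F b =
      ∑ g ∈ Icc 1 N, mu ((g : ℕ) : ZI) *
        ∑ w ∈ bq (Y / (g : ℝ) ^ 2) (X / (g : ℝ) ^ 2), bx g w * F (((g : ℕ) : ZI) * w) := by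
  classical
  have h := Pool.Agent.N277.GN.content_sum hm X Y
    (fun b => if ((Cls.q0 : ℕ) : ZI) ∣ b - Cls.b0 then F b else 0) N hN
  refine Eq.trans ?_ (h.trans ?_)
  · apply sum_congr rfl
    intro b _
    unfold mub
    split_ifs <;> ring
  · apply sum_congr rfl
    intro g _
    congr 1
    apply sum_congr rfl
    intro w _
    unfold bx
    split_ifs <;> ring

/-- the summand -/
noncomputable def hh (W D M : ℝ) (g : ℕ) (lam : ℤ → ℝ) (w v : ZI) : ℝ :=
  ax W v * (bx g w * lam (w * v).re * psi D (Real.sqrt (nz (w * v)) / M))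

/-- the blocks -/
noncomputable def Bl (W D M R P : ℝ) (g : ℕ) (lam : ℤ → ℝ) : ℝ :=
  ∑ w ∈ bq (R ^ 2) (4 * R ^ 2), ∑ v ∈ bq (P ^ 2) (4 * P ^ 2), hh W D M g lam w v

theorem hh_zero {W D M : ℝ} {g : ℕ} {lam : ℤ → ℝ} {w v : ZI} (hD : 0 ≤ D) (hM : 0 < M)
    (h : M ^ 2 ≤ nz w * nz v) : hh W D M g lam w v = 0 := by
  unfold hh
  rw [psi_zero hD, mul_zero, mul_zero]
  rw [le_div_iff₀ hM, one_mul, nz_mul]
  exact Real.le_sqrt_of_sq_le h

theorem hh_zero' {W D M : ℝ} {g : ℕ} {lam : ℤ → ℝ} {w v : ZI} (h : nz v ≤ W) : hh W D M g lam w v = 0 := by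
  unfold hh
  rw [ax_zero W h, zero_mul]

theorem hh_abs (hm : S_MUB) {W D M : ℝ} {g : ℕ} {lam : ℤ → ℝ} {w v : ZI} (hl : ∀ l, |lam l| ≤ 1) (hv : v ≠ 0) :
    |hh W D M g lam w v| ≤ 4 * Real.log (nz v) := by
  unfold hh
  have h1 : |bx g w * lam (w * v).re * psi D (Real.sqrt (nz (w * v)) / M)| ≤ 1 := by
    rw [abs_mul, abs_mul, abs_of_nonneg (psi_nonneg _ _)]
    have a1 := abs_bx_le g w
    have a2 := hl (w * v).re
    have a3 := psi_le D (Real.sqrt (nz (w * v)) / M)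
    have a4 := psi_nonneg D (Real.sqrt (nz (w * v)) / M)
    calc |bx g w| * |lam (w * v).re| * psi D (Real.sqrt (nz (w * v)) / M) ≤ 1 * 1 * 1 := by
          gcongr
      _ = 1 := by norm_num
  rw [abs_mul, abs_of_nonneg (ax_nonneg hm W v)]
  have h2 := ax_le hm W hv
  have h3 := ax_nonneg hm W v
  calc ax W v * |bx g w * lam (w * v).re * psi D (Real.sqrt (nz (w * v)) / M)| ≤ ax W v * 1 := by gcongr
    _ = ax W v := mul_one _
    _ ≤ _ := h2

theorem Bl_zero {W D M R P : ℝ} {g : ℕ} {lam : ℤ → ℝ} (hD : 0 ≤ D) (hM : 0 < M) (hR : 0 ≤ R) (hP : 0 ≤ P)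
    (h : M ≤ R * P) : Bl W D M R P g lam = 0 := by
  unfold Bl
  apply sum_eq_zero
  intro w hw
  apply sum_eq_zero
  intro v hv
  apply hh_zero hD hM
  have h1 := (mem_bq.1 hw).2.2
  have h2 := (mem_bq.1 hv).2.2
  calc M ^ 2 ≤ (R * P) ^ 2 := by gcongr
    _ = R ^ 2 * P ^ 2 := by ring
    _ ≤ nz w * nz v := mul_le_mul h1.le h2.le (sq_nonneg _) (nz_nonneg _)

/-- the statement of `S_T` for fixed constants -/
def TT (ε CT : ℝ) (a B' : ℕ) : Prop := ∀ (M L R P D : ℝ) (g : ℕ)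
  (lam : ℤ → ℝ), 3 ≤ M → 1 ≤ L → L ≤ M ^ (1 - ε) → M / L * M ^ ε ≤ R → R ^ 2 ≤ M ^ (1 - ε) →
  M / (Real.log M) ^ B' ≤ R * P → R * P ≤ M → 1 ≤ D → D ≤ (Real.log M) ^ B' → 1 ≤ g → (g : ℝ) ≤ (Real.log M) ^ B' →
  Lm L lam →
  ∑ v ∈ bl (9 * P ^ 2), Phi (Real.sqrt (nz v) / P) * (∑ w ∈ (bl (4 * R ^ 2)).filter (fun w => R ^ 2 < nz w),
    bx g w * lam (w * v).re * psi D (Real.sqrt (nz (w * v)) / M)) ^ 2 ≤ CT * L ^ 2 * R ^ 2 / (Real.log M) ^ (2 * a)

theorem Bl_good (hm : S_MUB) {ε CT : ℝ} {a B' : ℕ} (hCT : 0 < CT) (hT : TT ε CT a B')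
    (M L R P D W ℓ : ℝ) (g : ℕ)
    (lam : ℤ → ℝ) (hM : 3 ≤ M) (hL : 1 ≤ L) (hLM : L ≤ M ^ (1 - ε)) (hR : M / L * M ^ ε ≤ R)
    (hR2 : R ^ 2 ≤ M ^ (1 - ε))
    (hRP : M / (Real.log M) ^ B' ≤ R * P) (hRP' : R * P ≤ M) (hD : 1 ≤ D) (hD' : D ≤ (Real.log M) ^ B')
    (hg : 1 ≤ g) (hg' : (g : ℝ) ≤ (Real.log M) ^ B') (hlam : Lm L lam) (hP : 1 ≤ P)
    (hℓ : 4 * Real.log (4 * P ^ 2) ≤ ℓ) :
    |Bl W D M R P g lam| ≤ 6 * Real.sqrt CT * ℓ * (L * (R * P)) / (Real.log M) ^ a := by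
  classical
  have hlog : 0 < Real.log M := Real.log_pos (by linarith)
  have hR0 : 0 ≤ R := by
    refine le_trans ?_ hR
    positivity
  have hℓ0 : 0 ≤ ℓ := by
    refine le_trans ?_ hℓ
    have : (1 : ℝ) ≤ 4 * P ^ 2 := by nlinarith
    have := Real.log_nonneg this
    linarith
  have key := hT M L R P D g lam hM hL hLM hR hR2 hRP hRP' hD hD' hg hg' hlam
  set inner : ZI → ℝ := fun v => ∑ w ∈ (bl (4 * R ^ 2)).filter (fun w => R ^ 2 < nz w),
    bx g w * lam (w * v).re * psi D (Real.sqrt (nz (w * v)) / M) with hin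
  have e1 : Bl W D M R P g lam = ∑ v ∈ bq (P ^ 2) (4 * P ^ 2), ax W v * inner v := by
    unfold Bl
    rw [sum_comm]
    apply sum_congr rfl
    intro v _
    rw [hin]
    simp only
    rw [mul_sum]
    rfl
  have h1 : ∑ v ∈ bq (P ^ 2) (4 * P ^ 2), inner v ^ 2 ≤ CT * L ^ 2 * R ^ 2 / (Real.log M) ^ (2 * a) := by
    refine le_trans ?_ key
    have s1 : bq (P ^ 2) (4 * P ^ 2) ⊆ bl (9 * P ^ 2) := by
      intro v hv
      have hv' := mem_bq.1 hv
      rw [mem_bl]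
      refine ⟨hv'.1, hv'.2.1.trans ?_⟩
      nlinarith [sq_nonneg P]
    refine le_trans ?_ (sum_le_sum_of_subset_of_nonneg s1 ?_)
    · apply sum_le_sum
      intro v hv
      have hv' := mem_bq.1 hv
      rw [Phi_one, one_mul]
      · rw [le_div_iff₀ (by linarith), one_mul]
        exact Real.le_sqrt_of_sq_le hv'.2.2.le
      · rw [div_le_iff₀ (by linarith)]
        apply Real.sqrt_le_iff.2
        refine ⟨by linarith, ?_⟩
        nlinarith [hv'.2.1]
    · intro v _ _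
      exact mul_nonneg (Phi_nonneg _) (sq_nonneg _)
  have h2 : ∑ v ∈ bq (P ^ 2) (4 * P ^ 2), (ax W v) ^ 2 ≤ 36 * P ^ 2 * ℓ ^ 2 := by
    have b1 : ∀ v ∈ bq (P ^ 2) (4 * P ^ 2), (ax W v) ^ 2 ≤ ℓ ^ 2 := by
      intro v hv
      have hv' := mem_bq.1 hv
      have c1 := ax_le hm W hv'.1
      have c2 := ax_nonneg hm W v
      have c3 : Real.log (nz v) ≤ Real.log (4 * P ^ 2) := Real.log_le_log (nz_pos hv'.1) hv'.2.1
      have c4 : ax W v ≤ ℓ := by linarith
      gcongr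
    refine (sum_le_sum b1).trans ?_
    rw [sum_const, nsmul_eq_mul]
    have c5 : ((bq (P ^ 2) (4 * P ^ 2)).card : ℝ) ≤ 9 * (4 * P ^ 2) := by
      refine le_trans ?_ (card_bl (4 * P ^ 2) (by nlinarith))
      exact_mod_cast card_filter_le _ _
    have c6 : 0 ≤ ℓ ^ 2 := sq_nonneg _
    nlinarith
  have h3 : (Bl W D M R P g lam) ^ 2 ≤ (6 * Real.sqrt CT * ℓ * (L * (R * P)) / (Real.log M) ^ a) ^ 2 := by
    rw [e1]
    refine (sum_mul_sq_le_sq_mul_sq _ _ _).trans ?_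
    have c1 : 0 ≤ ∑ v ∈ bq (P ^ 2) (4 * P ^ 2), inner v ^ 2 := sum_nonneg fun v _ => sq_nonneg _
    refine (mul_le_mul h2 h1 c1 (by positivity)).trans (le_of_eq ?_)
    rw [div_pow, ← pow_mul, mul_comm a 2, mul_pow, mul_pow, mul_pow, Real.sq_sqrt hCT.le]
    ring
  apply abs_le_of_sq_le_sq h3
  positivity

theorem hh_ne {W D M L : ℝ} {g : ℕ} {lam : ℤ → ℝ} {w v : ZI} (hlam : Lm L lam) (h : hh W D M g lam w v ≠ 0) :
    1 ≤ (w * v).re ∧ (((w * v).re : ℤ) : ℝ) ≤ L := by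
  have h1 : lam (w * v).re ≠ 0 := by
    intro h1
    apply h
    unfold hh
    rw [h1]
    ring
  by_contra h2
  apply h1
  apply hlam.2
  by_contra h3
  rw [not_or] at h3
  exact h2 ⟨by omega, not_lt.1 h3.2⟩

theorem Bl_bad (hm : S_MUB) {C1 : ℝ} (hB : BX C1) (M L R P D W H K ℓ : ℝ) (g : ℕ) (lam : ℤ → ℝ)
    (hM : 0 < M) (hL : 0 ≤ L) (hLM : L ≤ M) (hlam : Lm L lam) (hH : 4 * (R * P) ≤ H) (hHM : H ≤ M)
    (hR : 0 ≤ R) (hP : 1 ≤ P) (hK : 4 * Real.log (4 * P ^ 2) ≤ K) (hℓ0 : 0 ≤ ℓ) (hℓ : Real.log (2 * M) ≤ ℓ) :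
    |Bl W D M R P g lam| ≤ K * (C1 * (L * (2 * H + 1) * ℓ + M * Real.sqrt M)) := by
  have hK0 : 0 ≤ K := by
    refine le_trans ?_ hK
    have : (1 : ℝ) ≤ 4 * P ^ 2 := by nlinarith
    have := Real.log_nonneg this
    linarith
  have hRP : 0 ≤ R * P := mul_nonneg hR (by linarith)
  have hH0 : 0 ≤ H := by linarith
  have e : H - -H + 1 = 2 * H + 1 := by ring
  rw [← e]
  unfold Bl
  apply hB M L (-H) H K ℓ _ _ _ hM hL hLM (by linarith) (by rw [abs_neg, abs_of_nonneg hH0]; exact hHM)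
    (by rw [abs_of_nonneg hH0]; exact hHM) hK0 hℓ0 hℓ
  · intro w _ v hv
    have hv' := mem_bq.1 hv
    refine (hh_abs hm hlam.1 hv'.1).trans ?_
    have c3 : Real.log (nz v) ≤ Real.log (4 * P ^ 2) := Real.log_le_log (nz_pos hv'.1) hv'.2.1
    linarith
  · intro w hw v hv hne
    obtain ⟨h1, h2⟩ := hh_ne hlam hne
    have hw' := mem_bq.1 hw
    have hv' := mem_bq.1 hv
    have h3 : |(((w * v).im : ℤ) : ℝ)| ≤ H := by
      refine (abs_im_le (w * v)).trans ?_
      refine le_trans ?_ hH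
      apply Real.sqrt_le_iff.2
      refine ⟨by linarith, ?_⟩
      rw [nz_mul]
      calc nz w * nz v ≤ (4 * R ^ 2) * (4 * P ^ 2) :=
            mul_le_mul hw'.2.1 hv'.2.1 (nz_nonneg v) (by positivity)
        _ = (4 * (R * P)) ^ 2 := by ring
    rw [abs_le] at h3
    exact ⟨h1, h2, h3.1, h3.2⟩

/-- the contribution of the content `g` -/
noncomputable def Tg (W D M Y X : ℝ) (g : ℕ) (lam : ℤ → ℝ) : ℝ :=
  ∑ w ∈ bq (Y / (g : ℝ) ^ 2) (X / (g : ℝ) ^ 2), bx g w * ∑ v ∈ bl X, ax W v * GG lam D M (((g : ℕ) : ZI) * w * v)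

theorem Tg_eq (W D M Y X : ℝ) (g : ℕ) (hg : 1 ≤ g) (lam : ℤ → ℝ) (hM : 0 < M) :
    Tg W D M Y X g lam = ∑ w ∈ bq (Y / (g : ℝ) ^ 2) (X / (g : ℝ) ^ 2), ∑ v ∈ bl X, hh W D (M / g) g (lg g lam) w v := by
  unfold Tg
  apply sum_congr rfl
  intro w _
  rw [mul_sum]
  apply sum_congr rfl
  intro v _
  unfold hh GG lg
  have hgR : (0 : ℝ) < g := by exact_mod_cast hg
  have e1 : ((g : ℕ) : ZI) * w * v = ((g : ℕ) : ZI) * (w * v) := mul_assoc _ _ _
  have e2 : Real.sqrt (nz (((g : ℕ) : ZI) * (w * v))) / M = Real.sqrt (nz (w * v)) / (M / g) := by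
    rw [nz_mul, nz_natCast, Real.sqrt_mul (by positivity), Real.sqrt_sq hgR.le]
    field_simp
  rw [e1, re_nat_mul, e2]
  ring

theorem Tg_small (W D M Y X : ℝ) (g : ℕ) (hg : 1 ≤ g) (lam : ℤ → ℝ) (hM : 1 ≤ M) (hD : 0 ≤ D) (hY : 0 ≤ Y)
    (hW : 0 ≤ W) (hX : M ^ 2 ≤ X) (I J : ℕ) (hI : M ^ 2 ≤ 4 ^ I * Y) (hJ : M ^ 2 ≤ 4 ^ J * W) :
    Tg W D M Y X g lam = ∑ i ∈ range I, ∑ j ∈ range J,
      Bl W D (M / g) (2 ^ i * Real.sqrt Y / g) (2 ^ j * Real.sqrt W) g (lg g lam) := by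
  classical
  have hg1 : (1 : ℝ) ≤ g := by exact_mod_cast hg
  have hgR : (0 : ℝ) < g := by linarith
  have hg2 : (0 : ℝ) < (g : ℝ) ^ 2 := by positivity
  have hMg : 0 < M / g := by positivity
  rw [Tg_eq W D M Y X g hg lam (by linarith)]
  set f := hh W D (M / g) g (lg g lam) with hf
  have s1 : ∀ w : ZI, w ≠ 0 → ∑ v ∈ bl X, f w v = ∑ v ∈ bq W (4 ^ J * W), f w v := by
    intro w hw
    have h1 : ∑ v ∈ bq W X, f w v = ∑ v ∈ bl X, f w v := by
      unfold bq
      apply sum_filter_of_ne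
      intro v _ hne
      by_contra h
      exact hne (hh_zero' (not_lt.1 h))
    rw [← h1]
    apply sum_bq_eq (T := M ^ 2) _ _ hX hJ
    intro v hv hMv
    apply hh_zero hD hMg
    rw [div_pow, div_le_iff₀ hg2]
    have h2 := one_le_nz hw
    have h3 : (1 : ℝ) ≤ (g : ℝ) ^ 2 := one_le_pow₀ hg1
    have h4 := nz_nonneg v
    calc M ^ 2 ≤ nz v := hMv
      _ ≤ nz w * nz v := by nlinarith
      _ ≤ nz w * nz v * (g : ℝ) ^ 2 := by
          have : 0 ≤ nz w * nz v := by positivity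
          nlinarith
  have s2 : ∑ w ∈ bq (Y / (g : ℝ) ^ 2) (X / (g : ℝ) ^ 2), ∑ v ∈ bl X, f w v =
      ∑ w ∈ bq (Y / (g : ℝ) ^ 2) (X / (g : ℝ) ^ 2), ∑ v ∈ bq W (4 ^ J * W), f w v := by
    apply sum_congr rfl
    intro w hw
    exact s1 w (mem_bq.1 hw).1
  rw [s2]
  have s3 : ∑ w ∈ bq (Y / (g : ℝ) ^ 2) (X / (g : ℝ) ^ 2), ∑ v ∈ bq W (4 ^ J * W), f w v =
      ∑ w ∈ bq (Y / (g : ℝ) ^ 2) (4 ^ I * (Y / (g : ℝ) ^ 2)), ∑ v ∈ bq W (4 ^ J * W), f w v := by
    apply sum_bq_eq (T := M ^ 2 / (g : ℝ) ^ 2)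
    · intro w hw hMw
      apply sum_eq_zero
      intro v hv
      apply hh_zero hD hMg
      rw [div_pow]
      have h2 := one_le_nz (mem_bq.1 hv).1
      have h4 := nz_nonneg w
      nlinarith
    · gcongr
    · rw [← mul_div_assoc]
      gcongr
  rw [s3, ← sum_bq_pow (by positivity)]
  apply sum_congr rfl
  intro i _
  have s4 : ∀ w : ZI, ∑ v ∈ bq W (4 ^ J * W), f w v = ∑ j ∈ range J, ∑ v ∈ bq (4 ^ j * W) (4 * (4 ^ j * W)), f w v :=
    fun w => (sum_bq_pow hW _ _).symm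
  rw [sum_congr rfl (fun w _ => s4 w), sum_comm]
  apply sum_congr rfl
  intro j _
  unfold Bl
  have e1 : (2 ^ i * Real.sqrt Y / (g : ℝ)) ^ 2 = 4 ^ i * (Y / (g : ℝ) ^ 2) := by
    rw [div_pow, mul_pow, Real.sq_sqrt hY, ← pow_mul, mul_comm i 2, pow_mul]
    norm_num
    ring
  have e2 : (2 ^ j * Real.sqrt W) ^ 2 = 4 ^ j * W := by
    rw [mul_pow, Real.sq_sqrt hW, ← pow_mul, mul_comm j 2, pow_mul]
    norm_num
  rw [e1, e2]

theorem Tg_large (hm : S_MUB) {C1 : ℝ} (hC1 : 0 < C1) (hB : BX C1) (W D M Y L : ℝ) (g : ℕ) (hg : 1 ≤ g) (lam : ℤ → ℝ)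
    (hM : 3 ≤ M) (hD : 0 ≤ D) (hL : 0 ≤ L) (hLM : L ≤ M) (hlam : Lm L lam) :
    |Tg W D M Y (2 * M ^ 2) g lam| ≤
      12 * Real.log M * (C1 * ((2 * L * M / (g : ℝ) ^ 2 + L / g) * (2 * Real.log M) + M * Real.sqrt M / g)) := by
  have hg1 : (1 : ℝ) ≤ g := by exact_mod_cast hg
  have hgR : (0 : ℝ) < g := by linarith
  have hlog : 0 < Real.log M := Real.log_pos (by linarith)
  have hMg : 0 < M / g := by positivity
  rw [Tg_eq W D M Y _ g hg lam (by linarith)]
  have key := hB (M / g) (L / g) (-(M / g)) (M / g) (12 * Real.log M) (2 * Real.log M)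
    (bq (Y / (g : ℝ) ^ 2) (2 * M ^ 2 / (g : ℝ) ^ 2)) (bl (2 * M ^ 2)) (hh W D (M / g) g (lg g lam)) hMg
    (by positivity) (by gcongr) (by linarith) (by rw [abs_neg, abs_of_pos hMg]) (by rw [abs_of_pos hMg])
    (by positivity) (by positivity) (log_two_mul hM hg)
    (by
      intro w _ v hv
      refine (hh_abs hm (Lm_lg hlam hg).1 ((mem_bl _ _).1 hv).1).trans (log_two_sq hM hv))
    (by
      intro w _ v _ hne
      obtain ⟨h1, h2⟩ := hh_ne (Lm_lg hlam hg) hne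
      have h3 : psi D (Real.sqrt (nz (w * v)) / (M / g)) ≠ 0 := by
        intro h3
        apply hne
        unfold hh
        rw [h3]
        ring
      have h4 := psi_ne hD h3
      rw [div_lt_iff₀ hMg, one_mul] at h4
      have h5 := (abs_im_le (w * v)).trans h4.le
      rw [abs_le] at h5
      exact ⟨h1, h2, h5.1, h5.2⟩)
  refine key.trans ?_
  apply mul_le_mul_of_nonneg_left _ (by positivity)
  apply mul_le_mul_of_nonneg_left _ hC1.le
  apply add_le_add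
  · apply mul_le_mul_of_nonneg_right _ (by positivity)
    apply le_of_eq
    field_simp
    ring
  · rw [mul_div_right_comm]
    apply mul_le_mul_of_nonneg_left _ (by positivity)
    apply Real.sqrt_le_sqrt
    exact div_le_self (by linarith) hg1

/-- replacing the sharp cut-off by the smooth one -/
theorem smooth (hm : S_MUB) {C1 : ℝ} (hB : BX C1) (W D M Y L : ℝ) (lam : ℤ → ℝ)
    (hM : 3 ≤ M) (hD : 4 ≤ D) (hL : 0 ≤ L) (hLM : L ≤ M) (hLD : L ^ 2 * D ≤ M ^ 2) (hlam : Lm L lam) :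
    |∑ b ∈ bq Y (2 * M ^ 2), ∑ v ∈ bl (2 * M ^ 2), mub b * ax W v * (Fz lam M (b * v) - GG lam D M (b * v))| ≤
      2 * (12 * Real.log M * (C1 * (L * (3 * M / D + 1) * (2 * Real.log M) + M * Real.sqrt M))) := by
  classical
  have hlog : 0 < Real.log M := Real.log_pos (by linarith)
  set f : ZI → ZI → ℝ := fun b v => mub b * ax W v * (Fz lam M (b * v) - GG lam D M (b * v)) with hf
  have hf1 : ∀ b ∈ bq Y (2 * M ^ 2), ∀ v ∈ bl (2 * M ^ 2), |f b v| ≤ 12 * Real.log M := by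
    intro b _ v hv
    have h1 := ax_nonneg hm W v
    have h2 := ax_le hm W ((mem_bl _ _).1 hv).1
    have h3 := log_two_sq hM hv
    have h4 : |Fz lam M (b * v) - GG lam D M (b * v)| ≤ 1 := by
      unfold Fz GG
      have a1 := psi_nonneg D (Real.sqrt (nz (b * v)) / M)
      have a2 := psi_le D (Real.sqrt (nz (b * v)) / M)
      have a3 := hlam.1 (b * v).re
      split_ifs
      · rw [show lam (b * v).re - lam (b * v).re * psi D (Real.sqrt (nz (b * v)) / M) =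
          lam (b * v).re * (1 - psi D (Real.sqrt (nz (b * v)) / M)) by ring, abs_mul]
        rw [abs_of_nonneg (show 0 ≤ 1 - psi D (Real.sqrt (nz (b * v)) / M) by linarith)]
        nlinarith [abs_nonneg (lam (b * v).re)]
      · rw [zero_sub, abs_neg, abs_mul, abs_of_nonneg a1]
        nlinarith [abs_nonneg (lam (b * v).re)]
    rw [hf]
    simp only
    rw [abs_mul, abs_mul, abs_of_nonneg h1]
    have h5 := abs_mub_le b
    calc |mub b| * ax W v * |Fz lam M (b * v) - GG lam D M (b * v)| ≤ 1 * ax W v * 1 := by gcongr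
      _ ≤ 12 * Real.log M := by linarith
  have hκ : (0 : ℝ) ≤ (1 - 3 / D) := by
    have : 3 / D ≤ 1 := by
      rw [div_le_one (by linarith)]
      linarith
    linarith
  have hf2 : ∀ b v : ZI, f b v ≠ 0 → 1 ≤ (b * v).re ∧ (((b * v).re : ℤ) : ℝ) ≤ L ∧
      (1 - 3 / D) * M ≤ |(((b * v).im : ℤ) : ℝ)| ∧ |(((b * v).im : ℤ) : ℝ)| ≤ M := by
    intro b v hne
    have h1 : Fz lam M (b * v) - GG lam D M (b * v) ≠ 0 := by
      intro h1
      apply hne
      rw [hf]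
      simp only
      rw [h1, mul_zero]
    have h2 : lam (b * v).re ≠ 0 := by
      intro h2
      apply h1
      unfold Fz GG
      rw [h2, zero_mul, sub_zero, ite_self]
    have h3 : 1 ≤ (b * v).re ∧ (((b * v).re : ℤ) : ℝ) ≤ L := by
      by_contra h2'
      apply h2
      apply hlam.2
      by_contra h3
      rw [not_or] at h3
      exact h2' ⟨by omega, not_lt.1 h3.2⟩
    have h4 : |(((b * v).im : ℤ) : ℝ)| ≤ M := by
      by_contra h4
      apply h1
      unfold Fz GG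
      rw [if_neg h4, psi_zero (by linarith)]
      · ring
      · rw [le_div_iff₀ (by linarith), one_mul]
        exact (not_le.1 h4).le.trans (abs_im_le _)
    refine ⟨h3.1, h3.2, ?_, h4⟩
    by_contra h5
    apply h1
    have h5' := not_le.1 h5
    unfold Fz GG
    rw [if_pos h4, psi_one (by linarith)]
    · ring
    · rw [div_le_iff₀ (by linarith)]
      have hD1 : (0 : ℝ) ≤ 1 - 1 / D := by
        have : 1 / D ≤ 1 := by
          rw [div_le_one (by linarith)]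
          linarith
        linarith
      apply Real.sqrt_le_iff.2
      refine ⟨by nlinarith, ?_⟩
      rw [nz_eq]
      have a1 : (((b * v).re : ℤ) : ℝ) ^ 2 ≤ L ^ 2 := by
        have : (1 : ℝ) ≤ (((b * v).re : ℤ) : ℝ) := by exact_mod_cast h3.1
        have := h3.2
        gcongr
      have a2 : (((b * v).im : ℤ) : ℝ) ^ 2 ≤ ((1 - 3 / D) * M) ^ 2 := by
        rw [← sq_abs]
        have := abs_nonneg (((b * v).im : ℤ) : ℝ)
        gcongr
      have a3 : L ^ 2 ≤ M ^ 2 * (1 / D) := by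
        rw [mul_one_div, le_div_iff₀ (by linarith)]
        exact hLD
      have a4 : 1 / D ≤ 1 / 4 := one_div_le_one_div_of_le (by norm_num) hD
      have a5 : 0 < 1 / D := by positivity
      have a6 : (3 : ℝ) / D = 3 * (1 / D) := by ring
      rw [a6] at a2
      have a7 : ((1 - 1 / D) * M) ^ 2 - ((1 - 3 * (1 / D)) * M) ^ 2 - M ^ 2 * (1 / D) =
          M ^ 2 * (1 / D) * (3 - 8 * (1 / D)) := by ring
      have a8 : 0 ≤ M ^ 2 * (1 / D) * (3 - 8 * (1 / D)) := by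
        apply mul_nonneg (by positivity)
        linarith
      linarith
  have e1 : ∑ b ∈ bq Y (2 * M ^ 2), ∑ v ∈ bl (2 * M ^ 2), f b v =
      ∑ b ∈ bq Y (2 * M ^ 2), ∑ v ∈ bl (2 * M ^ 2), (if 0 ≤ (b * v).im then f b v else 0) +
      ∑ b ∈ bq Y (2 * M ^ 2), ∑ v ∈ bl (2 * M ^ 2), (if 0 ≤ (b * v).im then 0 else f b v) := by
    rw [← sum_add_distrib]
    apply sum_congr rfl
    intro b _
    rw [← sum_add_distrib]
    apply sum_congr rfl
    intro v _
    split_ifs <;> ring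
  rw [e1]
  refine (abs_add_le _ _).trans ?_
  rw [two_mul (12 * Real.log M * _)]
  have hM0 : 0 < M := by linarith
  have hκM : 0 ≤ (1 - 3 / D) * M := by positivity
  have hκM' : (1 - 3 / D) * M ≤ M := by
    have : 0 ≤ 3 / D := by positivity
    nlinarith
  have hlg : Real.log (2 * M) ≤ 2 * Real.log M := by
    have := log_two_mul hM (le_refl 1)
    simpa using this
  have e2 : (L * (3 * M / D + 1) * (2 * Real.log M) + M * Real.sqrt M) =
      (L * (M - (1 - 3 / D) * M + 1) * (2 * Real.log M) + M * Real.sqrt M) := by ring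
  have e3 : (L * (3 * M / D + 1) * (2 * Real.log M) + M * Real.sqrt M) =
      (L * (-((1 - 3 / D) * M) - (-M) + 1) * (2 * Real.log M) + M * Real.sqrt M) := by ring
  apply add_le_add
  · rw [e2]
    apply hB M L ((1 - 3 / D) * M) M _ _ _ _ _ hM0 hL hLM hκM' (by rw [abs_of_nonneg hκM]; exact hκM')
      (by rw [abs_of_pos hM0]) (by positivity) (by positivity) hlg
    · intro b hb v hv
      split_ifs
      · exact hf1 b hb v hv
      · rw [abs_zero]
        positivity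
    · intro b hb v hv hne
      split_ifs at hne with h0
      · obtain ⟨h1, h2, h3, h4⟩ := hf2 b v hne
        have h5 : (0 : ℝ) ≤ (((b * v).im : ℤ) : ℝ) := by exact_mod_cast h0
        rw [abs_of_nonneg h5] at h3 h4
        exact ⟨h1, h2, h3, h4⟩
      · exact absurd rfl hne
  · rw [e3]
    apply hB M L (-M) (-((1 - 3 / D) * M)) _ _ _ _ _ hM0 hL hLM (by linarith) (by rw [abs_neg, abs_of_pos hM0])
      (by rw [abs_neg, abs_of_nonneg hκM]; exact hκM') (by positivity) (by positivity) hlg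
    · intro b hb v hv
      split_ifs
      · rw [abs_zero]
        positivity
      · exact hf1 b hb v hv
    · intro b hb v hv hne
      split_ifs at hne with h0
      · exact absurd rfl hne
      · obtain ⟨h1, h2, h3, h4⟩ := hf2 b v hne
        have h5 : (((b * v).im : ℤ) : ℝ) < 0 := by exact_mod_cast (not_le.1 h0)
        rw [abs_of_neg h5] at h3 h4
        exact ⟨h1, h2, by linarith, by linarith⟩

theorem block (hm : S_MUB) {ε CT C1 : ℝ} {A : ℕ} (hCT : 0 < CT) (hT : TT (ε / 2) CT (2 * A + 5) (2 * A + 6))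
    (hC1 : 0 < C1) (hB : BX C1) {M L Y W : ℝ} {lam : ℤ → ℝ} (h : Par ε A M L Y W lam) (g : ℕ) (hg : 1 ≤ g)
    (hg' : (g : ℝ) ≤ (Real.log M) ^ (A + 2)) (i j : ℕ) :
    |Bl W ((Real.log M) ^ (A + 2)) (M / g) (2 ^ i * Real.sqrt Y / g) (2 ^ j * Real.sqrt W) g (lg g lam)| ≤
      96 * Real.sqrt CT * Real.log M * (L * M) / (Real.log M / 2) ^ (2 * A + 5) +
      16 * Real.log M * (C1 * (L * (8 * M / (Real.log M / 2) ^ (2 * A + 6) + 1) * (2 * Real.log M) +
        M * Real.sqrt M)) := by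
  have h3 := h.big.h3
  have hε := h.e0
  have hL0 := h.L_pos
  have hLM := h.L_le
  have hY1 := h.Y_pos
  have hW1 := h.W_one
  set ℓ := Real.log M with hℓ
  have hl : 16 ≤ ℓ := h.big.hl
  have hℓ0 : 0 < ℓ := by linarith
  have hg1 : (1 : ℝ) ≤ g := by exact_mod_cast hg
  have hgR : (0 : ℝ) < g := by linarith
  have hM0 : 0 < M := by linarith
  have hM1 : 1 ≤ M := by linarith
  have hE1 : 0 ≤ 96 * Real.sqrt CT * ℓ * (L * M) / (ℓ / 2) ^ (2 * A + 5) := by positivity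
  have hE2 : 0 ≤ 16 * ℓ * (C1 * (L * (8 * M / (ℓ / 2) ^ (2 * A + 6) + 1) * (2 * ℓ) + M * Real.sqrt M)) := by
    positivity
  set q := M / g with hq
  have hq0 : 0 < q := by positivity
  have hqM : q ≤ M := div_le_self hM0.le hg1
  set R := 2 ^ i * Real.sqrt Y / g with hR
  set P := 2 ^ j * Real.sqrt W with hP
  set D := ℓ ^ (A + 2) with hD
  have hD1 : 1 ≤ D := one_le_pow₀ (by linarith)
  have hR0 : 0 ≤ R := by positivity
  have hP0 : 0 ≤ P := by positivity
  have h2j : (1 : ℝ) ≤ 2 ^ j := one_le_pow₀ (by norm_num)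
  have h2i : (1 : ℝ) ≤ 2 ^ i := one_le_pow₀ (by norm_num)
  have hsW : 1 ≤ Real.sqrt W := Real.one_le_sqrt.2 hW1
  have hP1 : 1 ≤ P := by
    rw [hP]
    nlinarith
  have hPW : W ≤ P ^ 2 := by
    rw [hP, mul_pow, Real.sq_sqrt (by linarith)]
    have : (1 : ℝ) ≤ (2 ^ j) ^ 2 := one_le_pow₀ h2j
    nlinarith
  -- `g ≤ M^ε`
  have hgM : (g : ℝ) ≤ M ^ ε := by
    refine hg'.trans (le_trans ?_ h.big.hp)
    exact pow_le_pow_right₀ (by linarith) (by omega)
  have hlogg : Real.log g ≤ ε * ℓ := by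
    rw [hℓ, ← Real.log_rpow hM0]
    exact Real.log_le_log hgR hgM
  have hlogq : ℓ / 2 ≤ Real.log q := by
    rw [hq, Real.log_div hM0.ne' hgR.ne']
    have : ε * ℓ ≤ 1 / 4 * ℓ := mul_le_mul_of_nonneg_right h.e4 hℓ0.le
    rw [← hℓ]
    linarith
  have hlogq0 : 0 < Real.log q := by linarith
  have hq3 : 3 ≤ q := by
    have e1 := Real.add_one_le_exp (Real.log q)
    rw [Real.exp_log hq0] at e1
    linarith
  -- comparison of logarithms
  have hpow : ∀ n : ℕ, (ℓ / 2) ^ n ≤ (Real.log q) ^ n := fun n => pow_le_pow_left₀ (by linarith) hlogq n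
  have hDq : D ≤ (Real.log q) ^ (2 * A + 6) := by
    refine le_trans ?_ (hpow _)
    have e1 : (ℓ / 2) ^ (2 * A + 6) = ℓ ^ (A + 2) * (ℓ ^ (A + 4) / 2 ^ (2 * A + 6)) := by
      rw [div_pow, ← mul_div_assoc, ← pow_add]
      congr 2
      omega
    rw [e1, hD]
    apply le_mul_of_one_le_right (by positivity)
    rw [le_div_iff₀ (by positivity), one_mul]
    calc (2 : ℝ) ^ (2 * A + 6) ≤ 2 ^ (4 * (A + 4)) := pow_le_pow_right₀ (by norm_num) (by omega)
      _ = 16 ^ (A + 4) := by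
          rw [pow_mul]
          norm_num
      _ ≤ ℓ ^ (A + 4) := pow_le_pow_left₀ (by norm_num) hl _
  have h4q : 4 ≤ (Real.log q) ^ (2 * A + 6) := by
    calc (4 : ℝ) ≤ 8 ^ 1 := by norm_num
      _ ≤ 8 ^ (2 * A + 6) := pow_le_pow_right₀ (by norm_num) (by omega)
      _ ≤ (Real.log q) ^ (2 * A + 6) := pow_le_pow_left₀ (by norm_num) (by linarith) _
  -- powers of `q`
  have hqpow : M ^ (1 - ε) / g ≤ q ^ (1 - ε / 2) := by
    rw [hq, Real.div_rpow hM0.le hgR.le]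
    have e1 : (g : ℝ) ^ (1 - ε / 2) ≤ g := by
      calc (g : ℝ) ^ (1 - ε / 2) ≤ (g : ℝ) ^ (1 : ℝ) := Real.rpow_le_rpow_of_exponent_le hg1 (by linarith)
        _ = g := Real.rpow_one _
    have e2 : M ^ (1 - ε) ≤ M ^ (1 - ε / 2) := Real.rpow_le_rpow_of_exponent_le hM1 (by linarith)
    exact div_le_div₀ (by positivity) e2 (by positivity) e1
  have hLg1 : 1 ≤ L / g := by
    rw [le_div_iff₀ hgR, one_mul]
    refine hgM.trans (le_trans ?_ h.L1)
    exact Real.rpow_le_rpow_of_exponent_le hM1 (by linarith)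
  have hLgM : L / g ≤ q ^ (1 - ε / 2) := by
    refine le_trans ?_ hqpow
    gcongr
    exact h.L2
  have hRlow : q / (L / g) * q ^ (ε / 2) ≤ R := by
    have e1 : q / (L / g) = M / L := by
      rw [hq]
      field_simp
    rw [e1]
    have e2 : M / L * M ^ (3 * ε / 2) ≤ Real.sqrt Y := by
      apply Real.le_sqrt_of_sq_le
      refine le_trans (le_of_eq ?_) h.hY
      rw [mul_pow, ← Real.rpow_natCast (M ^ (3 * ε / 2)) 2, ← Real.rpow_mul hM0.le]
      congr 2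
      push_cast
      ring
    have e3 : q ^ (ε / 2) ≤ M ^ (ε / 2) := Real.rpow_le_rpow hq0.le hqM (by linarith)
    have e4 : M ^ (ε / 2) ≤ M ^ (3 * ε / 2) / g := by
      rw [le_div_iff₀ hgR]
      calc M ^ (ε / 2) * g ≤ M ^ (ε / 2) * M ^ ε := by gcongr
        _ = M ^ (3 * ε / 2) := by
            rw [← Real.rpow_add hM0]
            congr 1
            ring
    calc M / L * q ^ (ε / 2) ≤ M / L * (M ^ (3 * ε / 2) / g) := by
          gcongr
          exact e3.trans e4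
      _ = M / L * M ^ (3 * ε / 2) / g := by ring
      _ ≤ Real.sqrt Y / g := by gcongr
      _ ≤ R := by
          rw [hR]
          gcongr
          have := Real.sqrt_nonneg Y
          nlinarith
  have hR1 : 1 ≤ R := by
    refine le_trans ?_ hRlow
    have e1 : q / (L / g) = M / L := by
      rw [hq]
      field_simp
    rw [e1]
    have e2 : 1 ≤ M / L := by
      rw [le_div_iff₀ hL0, one_mul]
      exact hLM
    have e3 : 1 ≤ q ^ (ε / 2) := Real.one_le_rpow (by linarith) (by linarith)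
    nlinarith
  -- three cases
  by_cases hc1 : q ≤ R * P
  · rw [Bl_zero (by linarith) hq0 hR0 hP0 hc1, abs_zero]
    linarith
  have hc1' := (not_le.1 hc1).le
  have hPM : P ≤ M := by
    have : P ≤ R * P := by nlinarith
    linarith
  have hlogP : 4 * Real.log (4 * P ^ 2) ≤ 16 * ℓ := by
    have e1 : Real.log (4 * P ^ 2) ≤ Real.log (M ^ 4) := by
      apply Real.log_le_log (by positivity)
      have e2 : P ^ 2 ≤ M ^ 2 := by gcongr
      have e3 : 4 * M ^ 2 ≤ M ^ 4 := by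
        have : M ^ 4 = M ^ 2 * M ^ 2 := by ring
        rw [this]
        apply mul_le_mul_of_nonneg_right _ (by positivity)
        nlinarith
      linarith
    rw [Real.log_pow] at e1
    push_cast at e1
    linarith
  have hLml := Lm_lg h.hlam hg
  by_cases hc2 : q / (Real.log q) ^ (2 * A + 6) ≤ R * P
  · -- good blocks
    have hR2 : R ^ 2 ≤ q ^ (1 - ε / 2) := by
      refine le_trans ?_ hqpow
      have e1 : R ^ 2 * W ≤ q ^ 2 := by
        calc R ^ 2 * W ≤ R ^ 2 * P ^ 2 := by gcongr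
          _ = (R * P) ^ 2 := by ring
          _ ≤ q ^ 2 := by gcongr
      have e2 : R ^ 2 * M ^ (1 + ε) ≤ q ^ 2 := le_trans (by
        gcongr
        exact h.hW) e1
      have e3 : q ^ 2 ≤ M ^ (1 - ε) / g * M ^ (1 + ε) := by
        rw [div_mul_eq_mul_div, ← Real.rpow_add hM0]
        have e4 : (1 - ε + (1 + ε)) = ((2 : ℕ) : ℝ) := by
          push_cast
          ring
        rw [e4, Real.rpow_natCast, hq, div_pow]
        have e5 : (g : ℝ) ≤ (g : ℝ) ^ 2 := by nlinarith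
        gcongr
      exact le_of_mul_le_mul_right (e2.trans e3) (by positivity)
    have key := Bl_good hm hCT hT q (L / g) R P D W (16 * ℓ) g (lg g lam) hq3 hLg1 hLgM hRlow hR2 hc2 hc1' hD1 hDq hg
      (hg'.trans hDq) hLml hP1 hlogP
    refine key.trans ?_
    have e1 : 6 * Real.sqrt CT * (16 * ℓ) * (L / g * (R * P)) / (Real.log q) ^ (2 * A + 5) ≤
        96 * Real.sqrt CT * ℓ * (L * M) / (ℓ / 2) ^ (2 * A + 5) := by
      have e2 : L / g * (R * P) ≤ L * M := by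
        have : L / g ≤ L := div_le_self hL0.le hg1
        have : R * P ≤ M := by linarith
        have : 0 ≤ R * P := by positivity
        gcongr
      have e3 : 6 * Real.sqrt CT * (16 * ℓ) * (L / g * (R * P)) ≤ 96 * Real.sqrt CT * ℓ * (L * M) := by
        have : 6 * Real.sqrt CT * (16 * ℓ) = 96 * Real.sqrt CT * ℓ := by ring
        rw [this]
        gcongr
      exact div_le_div₀ (by positivity) e3 (by positivity) (hpow _)
    linarith
  · -- bad blocks
    have hc2' := (not_le.1 hc2).le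
    set H := 4 * (q / (Real.log q) ^ (2 * A + 6)) with hH
    have hHq : H ≤ q := by
      rw [hH, ← mul_div_assoc, div_le_iff₀ (by positivity)]
      nlinarith
    have hHM : 2 * H ≤ 8 * M / (ℓ / 2) ^ (2 * A + 6) := by
      rw [hH]
      have e1 : q / (Real.log q) ^ (2 * A + 6) ≤ M / (ℓ / 2) ^ (2 * A + 6) :=
        div_le_div₀ hM0.le hqM (by positivity) (hpow _)
      calc 2 * (4 * (q / (Real.log q) ^ (2 * A + 6))) ≤ 8 * (M / (ℓ / 2) ^ (2 * A + 6)) := by linarith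
        _ = _ := by ring
    have key := Bl_bad hm hB q (L / g) R P D W H (16 * ℓ) (2 * ℓ) g (lg g lam) hq0 (by positivity)
      (by rw [hq]; gcongr) hLml (by rw [hH]; linarith) hHq hR0 hP1 hlogP (by positivity) (log_two_mul h3 hg)
    refine key.trans ?_
    have e1 : 16 * ℓ * (C1 * (L / g * (2 * H + 1) * (2 * ℓ) + q * Real.sqrt q)) ≤
        16 * ℓ * (C1 * (L * (8 * M / (ℓ / 2) ^ (2 * A + 6) + 1) * (2 * ℓ) + M * Real.sqrt M)) := by
      apply mul_le_mul_of_nonneg_left _ (by positivity)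
      apply mul_le_mul_of_nonneg_left _ hC1.le
      have hH0 : 0 ≤ H := by positivity
      have e2 : L / g ≤ L := div_le_self hL0.le hg1
      have e3 : q * Real.sqrt q ≤ M * Real.sqrt M := by
        have := Real.sqrt_le_sqrt hqM
        gcongr
      have e4 : L / g * (2 * H + 1) * (2 * ℓ) ≤ L * (8 * M / (ℓ / 2) ^ (2 * A + 6) + 1) * (2 * ℓ) := by
        apply mul_le_mul_of_nonneg_right _ (by positivity)
        apply mul_le_mul e2 (by linarith) (by linarith) hL0.le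
      linarith
    linarith

/-- the sum -/
noncomputable def SI (M Y W : ℝ) (lam : ℤ → ℝ) : ℝ :=
  ∑ b ∈ (bl (2 * M ^ 2)).filter (fun b => Y < nz b), ∑ v ∈ bl (2 * M ^ 2), mub b * ax W v * Fz lam M (b * v)

theorem SI_eq (hm : S_MUB) (M Y W D : ℝ) (lam : ℤ → ℝ) (N : ℕ) (hN : Real.sqrt (2 * M ^ 2) ≤ N) :
    SI M Y W lam = ∑ b ∈ bq Y (2 * M ^ 2), ∑ v ∈ bl (2 * M ^ 2),
        mub b * ax W v * (Fz lam M (b * v) - GG lam D M (b * v)) +
      ∑ g ∈ Icc 1 N, mu ((g : ℕ) : ZI) * Tg W D M Y (2 * M ^ 2) g lam := by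
  unfold Tg
  rw [← content_sumx hm (2 * M ^ 2) Y (fun b => ∑ v ∈ bl (2 * M ^ 2), ax W v * GG lam D M (b * v)) N hN,
    ← sum_add_distrib]
  unfold SI bq
  apply sum_congr rfl
  intro b _
  rw [mul_sum, ← sum_add_distrib]
  apply sum_congr rfl
  intro v _
  ring

/-- large contents -/
theorem large_part (hm : S_MUB) {C1 : ℝ} (hC1 : 0 < C1) (hB : BX C1) (W D M Y L : ℝ) (lam : ℤ → ℝ)
    (hM : 3 ≤ M) (hD : 0 ≤ D) (hL : 0 ≤ L) (hLM : L ≤ M) (hlam : Lm L lam) (n N : ℕ) (hn : 1 ≤ n)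
    (hN : 1 + Real.log N ≤ 3 * Real.log M) :
    ∑ g ∈ Ioc n N, |Tg W D M Y (2 * M ^ 2) g lam| ≤
      12 * Real.log M * (C1 * ((2 * L * M * (1 / n) + L * (3 * Real.log M)) * (2 * Real.log M) +
        M * Real.sqrt M * (3 * Real.log M))) := by
  have hlog : 0 < Real.log M := Real.log_pos (by linarith)
  have h1 : ∑ g ∈ Ioc n N, |Tg W D M Y (2 * M ^ 2) g lam| ≤ ∑ g ∈ Ioc n N,
      12 * Real.log M * (C1 * ((2 * L * M * (1 / (g : ℝ) ^ 2) + L * (1 / g)) * (2 * Real.log M) +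
        M * Real.sqrt M * (1 / g))) := by
    apply sum_le_sum
    intro g hg
    rw [mem_Ioc] at hg
    refine (Tg_large hm hC1 hB W D M Y L g (by omega) lam hM hD hL hLM hlam).trans (le_of_eq ?_)
    ring
  refine h1.trans ?_
  rw [← mul_sum, ← mul_sum, sum_add_distrib, ← sum_mul, sum_add_distrib, ← mul_sum, ← mul_sum, ← mul_sum]
  have h2 := sum_one_div_sq n N hn
  have h3 := (sum_one_div n N).trans hN
  have h4 : 0 ≤ M * Real.sqrt M := by positivity
  apply mul_le_mul_of_nonneg_left _ (by positivity)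
  apply mul_le_mul_of_nonneg_left _ hC1.le
  gcongr

/-- small contents -/
theorem small_part (hm : S_MUB) {ε CT C1 : ℝ} {A : ℕ} (hCT : 0 < CT) (hT : TT (ε / 2) CT (2 * A + 5) (2 * A + 6))
    (hC1 : 0 < C1) (hB : BX C1) {M L Y W : ℝ} {lam : ℤ → ℝ} (h : Par ε A M L Y W lam) (n : ℕ)
    (hn : (n : ℝ) ≤ (Real.log M) ^ (A + 2)) :
    ∑ g ∈ Icc 1 n, |Tg W ((Real.log M) ^ (A + 2)) M Y (2 * M ^ 2) g lam| ≤
      (Real.log M) ^ (A + 2) * ((3 * Real.log M) * ((3 * Real.log M) *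
      (96 * Real.sqrt CT * Real.log M * (L * M) / (Real.log M / 2) ^ (2 * A + 5) +
      16 * Real.log M * (C1 * (L * (8 * M / (Real.log M / 2) ^ (2 * A + 6) + 1) * (2 * Real.log M) +
        M * Real.sqrt M))))) := by
  have h3 := h.big.h3
  have hL0 := h.L_pos
  have hY1 := h.Y_pos
  have hW1 := h.W_one
  set ℓ := Real.log M with hℓ
  have hl : 16 ≤ ℓ := h.big.hl
  have hℓ0 : 0 < ℓ := by linarith
  have hM0 : 0 < M := by linarith
  set E := 96 * Real.sqrt CT * ℓ * (L * M) / (ℓ / 2) ^ (2 * A + 5) +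
      16 * ℓ * (C1 * (L * (8 * M / (ℓ / 2) ^ (2 * A + 6) + 1) * (2 * ℓ) + M * Real.sqrt M)) with hE
  have hE0 : 0 ≤ E := by positivity
  set I := ⌈2 * ℓ⌉₊ with hI
  have hI1 : (I : ℝ) ≤ 3 * ℓ := by
    have := Nat.ceil_lt_add_one (show 0 ≤ 2 * ℓ by positivity)
    linarith
  have hI2 : M ^ 2 ≤ 4 ^ I := by
    have e1 : M ^ 2 = Real.exp (2 * ℓ) := by
      rw [hℓ, two_mul, Real.exp_add, Real.exp_log hM0]
      ring
    have e2 : Real.exp (2 * ℓ) ≤ Real.exp I := Real.exp_le_exp.2 (Nat.le_ceil _)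
    have e3 : Real.exp I = (Real.exp 1) ^ I := by
      rw [← Real.exp_nat_mul, mul_one]
    have e4 : (Real.exp 1) ^ I ≤ 4 ^ I := by
      apply pow_le_pow_left₀ (Real.exp_pos 1).le
      have := Real.exp_one_lt_d9
      linarith
    rw [e1]
    linarith [e3 ▸ e4]
  have key : ∀ g ∈ Icc 1 n, |Tg W (ℓ ^ (A + 2)) M Y (2 * M ^ 2) g lam| ≤ (3 * ℓ) * ((3 * ℓ) * E) := by
    intro g hg
    rw [mem_Icc] at hg
    have hgn : (g : ℝ) ≤ ℓ ^ (A + 2) := by
      refine le_trans ?_ hn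
      exact_mod_cast hg.2
    rw [Tg_small W (ℓ ^ (A + 2)) M Y (2 * M ^ 2) g hg.1 lam (by linarith) (by positivity) (by linarith) (by linarith)
      (by nlinarith [sq_nonneg M]) I I (by nlinarith) (by nlinarith)]
    refine (abs_sum_le_sum_abs _ _).trans ?_
    have s1 : ∀ i ∈ range I, |∑ j ∈ range I, Bl W (ℓ ^ (A + 2)) (M / g) (2 ^ i * Real.sqrt Y / g)
        (2 ^ j * Real.sqrt W) g (lg g lam)| ≤ (3 * ℓ) * E := by
      intro i _
      refine (abs_sum_le_sum_abs _ _).trans ?_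
      refine (sum_le_sum fun j _ => block hm hCT hT hC1 hB h g hg.1 hgn i j).trans ?_
      rw [sum_const, card_range, nsmul_eq_mul]
      gcongr
    refine (sum_le_sum s1).trans ?_
    rw [sum_const, card_range, nsmul_eq_mul]
    gcongr
  refine (sum_le_sum key).trans ?_
  rw [sum_const, Nat.card_Icc, nsmul_eq_mul]
  have : ((n + 1 - 1 : ℕ) : ℝ) = n := by simp
  rw [this]
  gcongr

/-- the bound for large `M` -/
theorem main_large (hm : S_MUB) {ε CT C1 : ℝ} {A : ℕ} (hCT : 0 < CT) (hT : TT (ε / 2) CT (2 * A + 5) (2 * A + 6))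
    (hC1 : 0 < C1) (hB : BX C1) {M L Y W : ℝ} {lam : ℤ → ℝ} (h : Par ε A M L Y W lam) :
    |SI M Y W lam| ≤ (216 * C1 + 204 * C1 + 864 * 2 ^ (2 * A + 5) * Real.sqrt CT +
      144 * C1 * (16 * 2 ^ (2 * A + 6) + 3)) * (L * M / (Real.log M) ^ A) := by
  have h3 := h.big.h3
  have hε := h.e0
  have hL0 := h.L_pos
  have hLM := h.L_le
  have ab := absorb h
  have hbl := h.big.hl
  have hbp := h.big.hp
  have hM0 : 0 < M := by linarith
  have hSm := small_part hm hCT hT hC1 hB h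
  have hA2 : ((Real.log M) ^ (A + 2)) ≤ M ^ ε :=
    (pow_le_pow_right₀ (by linarith) (by omega)).trans hbp
  set x := Real.log M with hx
  have hx0 : 0 < x := by linarith
  set T := L * M / x ^ A with hT'
  have hT0 : 0 ≤ T := by positivity
  set D := x ^ (A + 2) with hD
  have hD0 : 0 < D := by positivity
  have hD4 : 4 ≤ D := by
    calc (4 : ℝ) ≤ x ^ 1 := by rw [pow_one]; linarith
      _ ≤ x ^ (A + 2) := pow_le_pow_right₀ (by linarith) (by omega)
  have hDL : L ^ 2 * D ≤ M ^ 2 := by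
    have e1 : L ^ 2 ≤ M ^ (2 - 2 * ε) := by
      calc L ^ 2 ≤ (M ^ (1 - ε)) ^ 2 := by
            have := h.L2
            gcongr
        _ = M ^ (2 - 2 * ε) := by
            rw [← Real.rpow_natCast, ← Real.rpow_mul hM0.le]
            congr 1
            push_cast
            ring
    calc L ^ 2 * D ≤ M ^ (2 - 2 * ε) * M ^ ε := by gcongr
      _ = M ^ (2 - ε) := by
          rw [← Real.rpow_add hM0]
          congr 1
          ring
      _ ≤ M ^ (2 : ℝ) := Real.rpow_le_rpow_of_exponent_le (by linarith) (by linarith)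
      _ = M ^ 2 := by
          rw [← Real.rpow_natCast]
          norm_num
  set N := ⌈Real.sqrt (2 * M ^ 2)⌉₊ with hN
  have hN1 : Real.sqrt (2 * M ^ 2) ≤ N := Nat.le_ceil _
  have hN2 : 1 + Real.log N ≤ 3 * x := by
    have e1 : (N : ℝ) ≤ M ^ 2 := by
      have e2 := Nat.ceil_lt_add_one (Real.sqrt_nonneg (2 * M ^ 2))
      have e3 : Real.sqrt (2 * M ^ 2) ≤ 2 * M := by
        apply Real.sqrt_le_iff.2
        refine ⟨by linarith, ?_⟩
        nlinarith [sq_nonneg M]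
      nlinarith
    have e4 : (0 : ℝ) < N := by
      refine lt_of_lt_of_le ?_ hN1
      positivity
    have e5 := Real.log_le_log e4 e1
    rw [Real.log_pow] at e5
    push_cast at e5
    linarith
  set n := ⌊D⌋₊ with hn
  have hn1 : (n : ℝ) ≤ D := Nat.floor_le hD0.le
  have hn2 : D / 2 ≤ n := by
    have := Nat.lt_floor_add_one D
    linarith
  have hn3 : 1 ≤ n := by
    have : (0 : ℝ) < n := by linarith
    exact_mod_cast this
  have hn4 : (1 : ℝ) / n ≤ 2 / D := by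
    rw [div_le_div_iff₀ (by exact_mod_cast hn3) hD0]
    linarith
  rw [SI_eq hm M Y W D lam N hN1]
  refine (abs_add_le _ _).trans ?_
  -- the three parts
  have p1 := smooth hm hB W D M Y L lam h3 hD4 hL0.le hLM hDL h.hlam
  have p2 := large_part hm hC1 hB W D M Y L lam h3 hD0.le hL0.le hLM h.hlam n N hn3 hN2
  have p3 := hSm n hn1
  have q1 : |∑ g ∈ Icc 1 N, mu ((g : ℕ) : ZI) * Tg W D M Y (2 * M ^ 2) g lam| ≤
      ∑ g ∈ Icc 1 n, |Tg W D M Y (2 * M ^ 2) g lam| + ∑ g ∈ Ioc n N, |Tg W D M Y (2 * M ^ 2) g lam| := by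
    refine (abs_sum_le_sum_abs _ _).trans ?_
    have e1 : ∀ g ∈ Icc 1 N, |mu ((g : ℕ) : ZI) * Tg W D M Y (2 * M ^ 2) g lam| ≤
        |Tg W D M Y (2 * M ^ 2) g lam| := by
      intro g _
      rw [abs_mul]
      have := abs_mu_le ((g : ℕ) : ZI)
      have := abs_nonneg (Tg W D M Y (2 * M ^ 2) g lam)
      nlinarith
    refine (sum_le_sum e1).trans ?_
    rw [← sum_union]
    · apply sum_le_sum_of_subset_of_nonneg
      · intro g hg
        rw [mem_Icc] at hg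
        rw [mem_union, mem_Icc, mem_Ioc]
        omega
      · intro g _ _
        exact abs_nonneg _
    · rw [disjoint_left]
      intro g hg hg'
      rw [mem_Icc] at hg
      rw [mem_Ioc] at hg'
      omega
  -- elementary bounds
  have r1 : L * M / D * x ^ 2 = T := by
    rw [hT', hD, pow_add]
    field_simp
  have r2 := (ab 2 (by omega)).1
  have r3 := (ab 1 (by omega)).2
  have r4 := (ab 3 (by omega)).1
  have r5 := (ab 2 (by omega)).2
  have r6 := (ab (A + 6) (by omega)).1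
  have r7 := (ab (A + 5) (by omega)).2
  have s1 : 2 * (12 * x * (C1 * (L * (3 * M / D + 1) * (2 * x) + M * Real.sqrt M))) ≤ 216 * C1 * T := by
    have e1 : 2 * (12 * x * (C1 * (L * (3 * M / D + 1) * (2 * x) + M * Real.sqrt M))) =
        24 * C1 * (6 * (L * M / D * x ^ 2) + 2 * (L * x ^ 2) + M * Real.sqrt M * x ^ 1) := by ring
    rw [e1, r1]
    have e2 : 6 * T + 2 * (L * x ^ 2) + M * Real.sqrt M * x ^ 1 ≤ 9 * T := by linarith
    calc 24 * C1 * (6 * T + 2 * (L * x ^ 2) + M * Real.sqrt M * x ^ 1) ≤ 24 * C1 * (9 * T) := by gcongr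
      _ = 216 * C1 * T := by ring
  have s2 : 12 * x * (C1 * ((2 * L * M * (1 / n) + L * (3 * x)) * (2 * x) + M * Real.sqrt M * (3 * x))) ≤
      204 * C1 * T := by
    have e0 : 2 * L * M * (1 / n) ≤ 2 * L * M * (2 / D) := by gcongr
    calc 12 * x * (C1 * ((2 * L * M * (1 / n) + L * (3 * x)) * (2 * x) + M * Real.sqrt M * (3 * x))) ≤
        12 * x * (C1 * ((2 * L * M * (2 / D) + L * (3 * x)) * (2 * x) + M * Real.sqrt M * (3 * x))) := by gcongr
      _ = 12 * C1 * (8 * (L * M / D * x ^ 2) + 6 * (L * x ^ 3) + 3 * (M * Real.sqrt M * x ^ 2)) := by ring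
      _ = 12 * C1 * (8 * T + 6 * (L * x ^ 3) + 3 * (M * Real.sqrt M * x ^ 2)) := by rw [r1]
      _ ≤ 12 * C1 * (17 * T) := by
          have : 8 * T + 6 * (L * x ^ 3) + 3 * (M * Real.sqrt M * x ^ 2) ≤ 17 * T := by linarith
          gcongr
      _ = 204 * C1 * T := by ring
  have s3 : D * ((3 * x) * ((3 * x) *
      (96 * Real.sqrt CT * x * (L * M) / (x / 2) ^ (2 * A + 5) +
      16 * x * (C1 * (L * (8 * M / (x / 2) ^ (2 * A + 6) + 1) * (2 * x) + M * Real.sqrt M))))) ≤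
      (864 * 2 ^ (2 * A + 5) * Real.sqrt CT + 144 * C1 * (16 * 2 ^ (2 * A + 6) + 3)) * T := by
    have e1 : D * ((3 * x) * ((3 * x) * (96 * Real.sqrt CT * x * (L * M) / (x / 2) ^ (2 * A + 5)))) =
        864 * 2 ^ (2 * A + 5) * Real.sqrt CT * T := by
      rw [hD, hT', div_pow]
      have : x ^ (2 * A + 5) = x ^ (A + 2) * x ^ 3 * x ^ A := by
        rw [← pow_add, ← pow_add]
        congr 1
        omega
      rw [this]
      field_simp
      ring
    have e2 : D * ((3 * x) * ((3 * x) * (16 * x * (C1 * (L * (8 * M / (x / 2) ^ (2 * A + 6)) * (2 * x)))))) =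
        144 * C1 * (16 * 2 ^ (2 * A + 6)) * T := by
      rw [hD, hT', div_pow]
      have : x ^ (2 * A + 6) = x ^ (A + 2) * x ^ 4 * x ^ A := by
        rw [← pow_add, ← pow_add]
        congr 1
        omega
      rw [this]
      field_simp
      ring
    have e3 : D * ((3 * x) * ((3 * x) * (16 * x * (C1 * (L * (2 * x)))))) = 144 * C1 * (2 * (L * x ^ (A + 6))) := by
      rw [hD, show A + 6 = (A + 2) + 4 by omega, pow_add x (A + 2) 4]
      ring
    have e4 : D * ((3 * x) * ((3 * x) * (16 * x * (C1 * (M * Real.sqrt M))))) =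
        144 * C1 * (M * Real.sqrt M * x ^ (A + 5)) := by
      rw [hD, show A + 5 = (A + 2) + 3 by omega, pow_add x (A + 2) 3]
      ring
    have e5 : D * ((3 * x) * ((3 * x) *
      (96 * Real.sqrt CT * x * (L * M) / (x / 2) ^ (2 * A + 5) +
      16 * x * (C1 * (L * (8 * M / (x / 2) ^ (2 * A + 6) + 1) * (2 * x) + M * Real.sqrt M))))) =
      D * ((3 * x) * ((3 * x) * (96 * Real.sqrt CT * x * (L * M) / (x / 2) ^ (2 * A + 5)))) +
      D * ((3 * x) * ((3 * x) * (16 * x * (C1 * (L * (8 * M / (x / 2) ^ (2 * A + 6)) * (2 * x)))))) +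
      D * ((3 * x) * ((3 * x) * (16 * x * (C1 * (L * (2 * x)))))) +
      D * ((3 * x) * ((3 * x) * (16 * x * (C1 * (M * Real.sqrt M))))) := by ring
    rw [e5, e1, e2, e3, e4]
    have e6 : 144 * C1 * (2 * (L * x ^ (A + 6))) + 144 * C1 * (M * Real.sqrt M * x ^ (A + 5)) ≤ 144 * C1 * (3 * T) := by
      rw [← mul_add]
      have : 2 * (L * x ^ (A + 6)) + M * Real.sqrt M * x ^ (A + 5) ≤ 3 * T := by linarith
      gcongr
    have e7 : (864 * 2 ^ (2 * A + 5) * Real.sqrt CT + 144 * C1 * (16 * 2 ^ (2 * A + 6) + 3)) * T =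
        864 * 2 ^ (2 * A + 5) * Real.sqrt CT * T + 144 * C1 * (16 * 2 ^ (2 * A + 6)) * T + 144 * C1 * (3 * T) := by
      ring
    rw [e7]
    linarith
  have e8 : (216 * C1 + 204 * C1 + 864 * 2 ^ (2 * A + 5) * Real.sqrt CT +
      144 * C1 * (16 * 2 ^ (2 * A + 6) + 3)) * T = 216 * C1 * T + 204 * C1 * T +
      (864 * 2 ^ (2 * A + 5) * Real.sqrt CT + 144 * C1 * (16 * 2 ^ (2 * A + 6) + 3)) * T := by ring
  rw [e8]
  linarith

/-- the trivial bound -/
theorem SI_trivial (hm : S_MUB) {M Y W L : ℝ} {lam : ℤ → ℝ} (hM : 3 ≤ M) (hlam : Lm L lam) :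
    |SI M Y W lam| ≤ (9 * (2 * M ^ 2)) * ((9 * (2 * M ^ 2)) * (12 * Real.log M)) := by
  have hlog : 0 < Real.log M := Real.log_pos (by linarith)
  have hc : ((bl (2 * M ^ 2)).card : ℝ) ≤ 9 * (2 * M ^ 2) := card_bl _ (by nlinarith)
  unfold SI
  refine (abs_sum_le_sum_abs _ _).trans ?_
  have h1 : ∀ b ∈ (bl (2 * M ^ 2)).filter (fun b => Y < nz b),
      |∑ v ∈ bl (2 * M ^ 2), mub b * ax W v * Fz lam M (b * v)| ≤ (9 * (2 * M ^ 2)) * (12 * Real.log M) := by
    intro b _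
    refine (abs_sum_le_sum_abs _ _).trans ?_
    have h2 : ∀ v ∈ bl (2 * M ^ 2), |mub b * ax W v * Fz lam M (b * v)| ≤ 12 * Real.log M := by
      intro v hv
      have a1 := ax_nonneg hm W v
      have a2 := ax_le hm W ((mem_bl _ _).1 hv).1
      have a3 := log_two_sq hM hv
      have a4 : |Fz lam M (b * v)| ≤ 1 := by
        unfold Fz
        split_ifs
        · exact hlam.1 _
        · simp
      have a5 := abs_mub_le b
      rw [abs_mul, abs_mul, abs_of_nonneg a1]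
      calc |mub b| * ax W v * |Fz lam M (b * v)| ≤ 1 * ax W v * 1 := by gcongr
        _ ≤ 12 * Real.log M := by linarith
    refine (sum_le_sum h2).trans ?_
    rw [sum_const, nsmul_eq_mul]
    gcongr
  refine (sum_le_sum h1).trans ?_
  rw [sum_const, nsmul_eq_mul]
  have h4 : (((bl (2 * M ^ 2)).filter (fun b => Y < nz b)).card : ℝ) ≤ 9 * (2 * M ^ 2) := by
    refine le_trans ?_ hc
    exact_mod_cast card_filter_le _ _
  gcongr

theorem cop_of_nat {g q : ℕ} (h : Nat.Coprime g q) : IsCoprime ((g : ℕ) : ZI) ((q : ℕ) : ZI) := by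
  have h1 : IsCoprime (g : ℤ) (q : ℤ) := Nat.isCoprime_iff_coprime.2 h
  have h2 := h1.map (Int.castRingHom ZI)
  simpa using h2

theorem bx_eq {g : ℕ} (h : Nat.Coprime g Cls.q0) : ∃ w0 : ZI, ∀ w, bx g w = bec Cls.q0 g w0 w := by
  obtain ⟨u, v, huv⟩ := cop_of_nat h
  refine ⟨u * Cls.b0, fun w => ?_⟩
  have key : ((Cls.q0 : ℕ) : ZI) ∣ ((g : ℕ) : ZI) * w - Cls.b0 ↔
      ((Cls.q0 : ℕ) : ZI) ∣ w - u * Cls.b0 := by
    constructor
    · intro h1
      have e : w - u * Cls.b0 = u * (((g : ℕ) : ZI) * w - Cls.b0) + ((Cls.q0 : ℕ) : ZI) * (v * w) := by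
        linear_combination (-w) * huv
      rw [e]
      exact dvd_add (h1.mul_left _) (Dvd.intro _ rfl)
    · intro h1
      have e : ((g : ℕ) : ZI) * w - Cls.b0 =
          ((g : ℕ) : ZI) * (w - u * Cls.b0) - ((Cls.q0 : ℕ) : ZI) * (v * Cls.b0) := by
        linear_combination Cls.b0 * huv
      rw [e]
      exact dvd_sub (h1.mul_left _) (Dvd.intro _ rfl)
  unfold bx bec
  by_cases h1 : ((Cls.q0 : ℕ) : ZI) ∣ ((g : ℕ) : ZI) * w - Cls.b0
  · rw [if_pos h1, if_pos (key.1 h1)]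
  · rw [if_neg h1, if_neg (fun h2 => h1 (key.2 h2))]

theorem bx_zero {g : ℕ} (hc : IsCoprime (Cls.b0 : ZI) ((Cls.q0 : ℕ) : ZI))
    (h : ¬ Nat.Coprime g Cls.q0) (w : ZI) : bx g w = 0 := by
  unfold bx
  rw [if_neg]
  intro h1
  apply h
  set p := Nat.gcd g Cls.q0 with hp
  have hpg : ((p : ℕ) : ZI) ∣ ((g : ℕ) : ZI) := Nat.cast_dvd_cast (Nat.gcd_dvd_left _ _)
  have hpq : ((p : ℕ) : ZI) ∣ ((Cls.q0 : ℕ) : ZI) := Nat.cast_dvd_cast (Nat.gcd_dvd_right _ _)
  have hpb : ((p : ℕ) : ZI) ∣ Cls.b0 := by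
    have e : (Cls.b0 : ZI) = ((g : ℕ) : ZI) * w - (((g : ℕ) : ZI) * w - Cls.b0) := by ring
    rw [e]
    exact dvd_sub (hpg.mul_right _) (hpq.trans h1)
  have hu : IsUnit ((p : ℕ) : ZI) := hc.isUnit_of_dvd' hpb hpq
  have hn : nz ((p : ℕ) : ZI) = 1 := by
    obtain ⟨y, hy⟩ := hu.exists_right_inv
    have e1 : nz ((p : ℕ) : ZI) * nz y = 1 := by
      rw [← nz_mul, hy]
      unfold nz
      simp
    have hp0 : ((p : ℕ) : ZI) ≠ 0 := hu.ne_zero
    have hy0 : y ≠ 0 := by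
      rintro rfl
      rw [mul_zero] at hy
      exact zero_ne_one hy
    have e2 := one_le_nz hp0
    have e3 := one_le_nz hy0
    nlinarith
  rw [nz_natCast] at hn
  have hp1 : (p : ℝ) = 1 := by
    have : (0 : ℝ) ≤ p := Nat.cast_nonneg p
    nlinarith
  have hp2 : p = 1 := by exact_mod_cast hp1
  exact hp2

theorem TT_of {ε CT : ℝ} {a B' : ℕ} (hCT : 0 < CT) (hc : IsCoprime (Cls.b0 : ZI) ((Cls.q0 : ℕ) : ZI))
    (h : ∀ (M L R P D : ℝ) (g : ℕ) (w0 : ZI)
      (lam : ℤ → ℝ), 3 ≤ M → 1 ≤ L → L ≤ M ^ (1 - ε) → M / L * M ^ ε ≤ R → R ^ 2 ≤ M ^ (1 - ε) →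
      M / (Real.log M) ^ B' ≤ R * P → R * P ≤ M → 1 ≤ D → D ≤ (Real.log M) ^ B' → 1 ≤ g →
      (g : ℝ) ≤ (Real.log M) ^ B' → Lm L lam →
      ∑ v ∈ bl (9 * P ^ 2), Phi (Real.sqrt (nz v) / P) * (∑ w ∈ (bl (4 * R ^ 2)).filter (fun w => R ^ 2 < nz w),
        bec Cls.q0 g w0 w * lam (w * v).re * psi D (Real.sqrt (nz (w * v)) / M)) ^ 2 ≤
        CT * L ^ 2 * R ^ 2 / (Real.log M) ^ (2 * a)) : TT ε CT a B' := by
  intro M L R P D g lam hM hL hLM hR hR2 hRP hRP' hD hD' hg hg' hlam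
  by_cases hgc : Nat.Coprime g Cls.q0
  · obtain ⟨w0, hw0⟩ := bx_eq hgc
    simp only [hw0]
    exact h M L R P D g w0 lam hM hL hLM hR hR2 hRP hRP' hD hD' hg hg' hlam
  · simp only [bx_zero hc hgc, zero_mul, sum_const_zero]
    have hlog : 0 < Real.log M := Real.log_pos (by linarith)
    have e : ∀ v : ZI, Phi (Real.sqrt (nz v) / P) * (0 : ℝ) ^ 2 = 0 := fun v => by ring
    simp only [e, sum_const_zero]
    positivity

end Pool.Agent.N608.GNX
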