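import Pool.Agent.N608.GNX.TXE

/-!
# Project GN (helper782), task XTI: the linear sums in a class modulo `q₀` (adapted from helper458's TI)
-/

set_option autoImplicit false

namespace Pool.Agent.N608.GNX.TX

open Finset
open Pool.Agent.N782.GN
open Pool.Agent.N458.GN

theorem cls_scale {q0 g : ℕ} {gb : ℤ} (hgb : (q0 : ℤ) ∣ gb * g - 1) (m0 m : ℤ) :
    (q0 : ℤ) ∣ (g : ℤ) * m - m0 ↔ (q0 : ℤ) ∣ m - gb * m0 := by
  obtain ⟨e, he⟩ := hgb
  constructor
  · rintro ⟨j, hj⟩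
    refine ⟨gb * j - e * m, ?_⟩
    linear_combination gb * hj - m * he
  · rintro ⟨j, hj⟩
    refine ⟨g * j + e * m0, ?_⟩
    linear_combination (g : ℤ) * hj + m0 * he

theorem nmx_scale {q0 : ℕ} (m0 : ℤ) (a0 : ZI) (g : ℕ) (hg : 1 ≤ g) {gb : ℤ} (hgb : (q0 : ℤ) ∣ gb * g - 1) (M : ℝ)
    (l : ℤ) : nmx q0 m0 M (((g : ℕ) : ZI) * a0) (g * l) = nmx q0 (gb * m0) (M / g) a0 l := by
  classical
  have hg0 : (0 : ℝ) < g := by exact_mod_cast hg
  unfold nmx
  congr 1
  symm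
  apply card_nbij' (i := fun m => (g : ℤ) * m) (j := fun m => m / (g : ℤ))
  · intro m hm
    simp only [coe_filter, Set.mem_ofPred_eq, mem_Icc, Int.ceil_le, Int.le_floor] at hm ⊢
    obtain ⟨⟨h1, h2⟩, h3⟩ := hm
    rw [← neg_div, div_le_iff₀ hg0] at h1
    rw [le_div_iff₀ hg0] at h2
    refine ⟨⟨?_, ?_⟩, ?_⟩
    · push_cast
      linarith
    · push_cast
      linarith
    · exact ⟨(cls_scale hgb m0 m).mpr h3.1, (scale1 a0 g hg l m).mpr h3.2⟩
  · intro m hm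
    simp only [coe_filter, Set.mem_ofPred_eq, mem_Icc, Int.ceil_le, Int.le_floor] at hm ⊢
    obtain ⟨⟨h1, h2⟩, h3⟩ := hm
    obtain ⟨-, j, hj⟩ := scale2 a0 g _ _ h3.2
    rw [hj] at h3 h1 h2 ⊢
    rw [Int.mul_ediv_cancel_left _ (by omega)]
    push_cast at h1 h2
    refine ⟨⟨?_, ?_⟩, ?_⟩
    · rw [← neg_div, div_le_iff₀ hg0]
      linarith
    · rw [le_div_iff₀ hg0]
      linarith
    · exact ⟨(cls_scale hgb m0 j).mp h3.1, (scale1 a0 g hg l j).mp h3.2⟩
  · intro m _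
    simp only
    exact Int.mul_ediv_cancel_left _ (by omega)
  · intro m hm
    simp only [coe_filter, Set.mem_ofPred_eq, mem_Icc, Int.ceil_le, Int.le_floor] at hm
    obtain ⟨_, h3⟩ := hm
    obtain ⟨-, h4⟩ := scale2 a0 g _ _ h3.2
    simp only
    exact Int.mul_ediv_cancel' h4

theorem nmx_zero {q0 : ℕ} (m0 : ℤ) (a0 : ZI) (g : ℕ) (M : ℝ) (l : ℤ) (hl : ¬ (g : ℤ) ∣ l) :
    nmx q0 m0 M (((g : ℕ) : ZI) * a0) l = 0 := by
  classical
  unfold nmx
  rw [Nat.cast_eq_zero, card_eq_zero, filter_eq_empty_iff]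
  intro m _ h
  exact hl (scale2 a0 g _ _ h.2).1

/-- the sum for `a = g a₀` -/
theorem sum_scalex {q0 : ℕ} (hq : 1 ≤ q0) (m0 : ℤ) (a0 : ZI) (g : ℕ) (hg : 1 ≤ g) {gb : ℤ}
    (hgb : (q0 : ℤ) ∣ gb * g - 1) (h1 : ct a0 = 1) (M L : ℝ) (lam : ℤ → ℝ) :
    ∑ l ∈ Icc 1 ⌊L⌋, lam l * (nmx q0 m0 M (((g : ℕ) : ZI) * a0) l - 2 * M / q0 * (kap l (((g : ℕ) : ZI) * a0) /
      nz (((g : ℕ) : ZI) * a0))) =
    ∑ l ∈ Icc (1 : ℤ) ⌊L / g⌋, lam (g * l) * (nmx q0 (gb * m0) (M / g) a0 l - 2 * (M / g) / (q0 * nz a0)) := by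
  classical
  have hg0 : (0 : ℝ) < g := by exact_mod_cast hg
  have hq0p : (0 : ℝ) < q0 := by exact_mod_cast hq
  have hz : ∀ l ∈ Icc (1 : ℤ) ⌊L⌋, ¬ (g : ℤ) ∣ l → lam l * (nmx q0 m0 M (((g : ℕ) : ZI) * a0) l - 2 * M / q0 *
      (kap l (((g : ℕ) : ZI) * a0) / nz (((g : ℕ) : ZI) * a0))) = 0 := by
    intro l _ hl
    rw [nmx_zero m0 a0 g M l hl]
    unfold kap
    rw [ct_scale a0 g h1, if_neg hl]
    simp
  rw [← sum_filter_add_sum_filter_not (Icc 1 ⌊L⌋) (fun l : ℤ => (g : ℤ) ∣ l)]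
  rw [sum_eq_zero (s := (Icc 1 ⌊L⌋).filter (fun l : ℤ => ¬ (g : ℤ) ∣ l))
    (fun l hl => hz l (mem_filter.mp hl).1 (mem_filter.mp hl).2), add_zero]
  symm
  apply sum_nbij' (i := fun l => (g : ℤ) * l) (j := fun l => l / (g : ℤ))
  · intro l hl
    rw [mem_Icc, Int.le_floor, le_div_iff₀ hg0] at hl
    rw [mem_filter, mem_Icc, Int.le_floor]
    refine ⟨⟨?_, ?_⟩, dvd_mul_right _ _⟩
    · have : (1 : ℤ) ≤ g := by exact_mod_cast hg
      nlinarith [hl.1]
    · push_cast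
      linarith [hl.2]
  · intro l hl
    rw [mem_filter, mem_Icc, Int.le_floor] at hl
    obtain ⟨⟨h2, h3⟩, j, rfl⟩ := hl
    rw [Int.mul_ediv_cancel_left _ (by omega), mem_Icc, Int.le_floor, le_div_iff₀ hg0]
    push_cast at h3
    refine ⟨?_, by linarith⟩
    have : (1 : ℤ) ≤ g := by exact_mod_cast hg
    by_contra hcon
    push Not at hcon
    have : j ≤ 0 := by omega
    nlinarith
  · intro l _
    exact Int.mul_ediv_cancel_left _ (by omega)
  · intro l hl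
    exact Int.mul_ediv_cancel' (mem_filter.mp hl).2
  · intro l _
    rw [nmx_scale m0 a0 g hg hgb M l]
    unfold kap
    rw [ct_scale a0 g h1, if_pos (dvd_mul_right _ _), nz_scale]
    congr 2
    field_simp

/-- task XTI -/
theorem tix (h0 : S_DVB) (h1 : S_RLS) : S_TIX := by
  classical
  intro ε q0 hε hq
  by_cases hε1 : 1 < ε
  · refine ⟨1, one_pos, ?_⟩
    intro M L D m0 lam hM hL hLM
    exfalso
    have : M ^ (1 - ε) < 1 := Real.rpow_lt_one_of_one_lt_of_neg (by linarith) (by linarith)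
    linarith
  push Not at hε1
  obtain ⟨hroot, CR, hCR, hR⟩ := h1
  obtain ⟨C, hC, hb⟩ := blockboundx hq h0 CR hCR hR hroot ε hε
  set δ : ℝ := ε / 100 with hδ
  have hδ0 : 0 < δ := by positivity
  refine ⟨C * 2 * (4 / δ + 1), by positivity, ?_⟩
  intro M L D m0 lam hM hL hLM hD hDL hlam
  have hM0 : 0 < M := by linarith
  set v : ℝ := M ^ δ with hv
  have hv1 : 1 ≤ v := Real.one_le_rpow (by linarith) hδ0.le
  have hvpos : 0 < v := by linarith
  have hv100 : v ^ 100 = M ^ ε := by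
    rw [hv, ← Real.rpow_natCast, ← Real.rpow_mul hM0.le, hδ]
    congr 1
    push_cast
    ring
  have hMe : M ^ (1 - ε) * v ^ 100 = M := by
    rw [hv100, ← Real.rpow_add hM0]
    simp
  have hLM' : L * v ^ 100 ≤ M := by
    calc L * v ^ 100 ≤ M ^ (1 - ε) * v ^ 100 := by gcongr
      _ = M := hMe
  have hDLM : D * v ^ 100 ≤ L * M := by
    calc D * v ^ 100 ≤ (L * M ^ (1 - ε)) * v ^ 100 := by gcongr
      _ = L * (M ^ (1 - ε) * v ^ 100) := by ring
      _ = L * M := by rw [hMe]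
  have hLleM : L ≤ M := by
    calc L = L * 1 := (mul_one _).symm
      _ ≤ L * v ^ 100 := mul_le_mul_of_nonneg_left (one_le_pow₀ hv1) (by linarith)
      _ ≤ M := hLM'
  have hDM : D ≤ M ^ 2 := by
    calc D = D * 1 := (mul_one _).symm
      _ ≤ D * v ^ 100 := mul_le_mul_of_nonneg_left (one_le_pow₀ hv1) (by linarith)
      _ ≤ L * M := hDLM
      _ ≤ M * M := mul_le_mul_of_nonneg_right hLleM hM0.le
      _ = M ^ 2 := by ring
  set F : ZI → ℝ := fun a => |∑ l ∈ Icc 1 ⌊L⌋, lam l * (nmx q0 m0 M a l - 2 * M / q0 * (kap l a / nz a))| with hF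
  set φ : ZI → ℕ × ℕ := fun a => (ct a, Nat.log 2 (Zsqrtd.norm (pr a)).natAbs) with hφ
  set I : ℕ := Nat.log 2 ⌊D⌋₊ + 1 with hI
  have hnzn : ∀ a : ZI, nz a = (((Zsqrtd.norm a).natAbs : ℕ) : ℝ) := by
    intro a
    have h2 : 0 ≤ Zsqrtd.norm a := by
      have h3 := nz_nonneg a
      unfold nz at h3
      exact_mod_cast h3
    unfold nz
    rw [Nat.cast_natAbs, abs_of_nonneg h2]
  have hfac : ∀ a ∈ bl D, nz a = (ct a : ℝ) ^ 2 * nz (pr a) ∧ (1 : ℝ) ≤ ct a ∧ 1 ≤ nz (pr a) := by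
    intro a ha
    rw [mem_bl] at ha
    obtain ⟨e1, e2, e3⟩ := pr_spec ha.1
    refine ⟨?_, by exact_mod_cast ct_pos ha.1, ?_⟩
    · conv_lhs => rw [e1]
      rw [nz_scale]
    · have := norm_pos_int e3
      unfold nz
      exact_mod_cast this
  have hmaps : ∀ a ∈ bl D, φ a ∈ Icc 1 ⌊D⌋₊ ×ˢ range I := by
    intro a ha
    obtain ⟨e1, e2, e3⟩ := hfac a ha
    have e4 : nz a ≤ D := ((mem_bl _ _).mp ha).2
    rw [mem_product, mem_Icc, mem_range]
    refine ⟨⟨by exact_mod_cast e2, ?_⟩, ?_⟩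
    · show ct a ≤ ⌊D⌋₊
      apply Nat.le_floor
      calc (ct a : ℝ) = ct a * 1 := (mul_one _).symm
        _ ≤ ct a * (ct a * nz (pr a)) := by
          apply mul_le_mul_of_nonneg_left _ (by linarith)
          nlinarith
        _ = nz a := by rw [e1]; ring
        _ ≤ D := e4
    · show Nat.log 2 (Zsqrtd.norm (pr a)).natAbs < I
      rw [hI, Nat.lt_succ_iff]
      apply Nat.log_mono_right
      apply Nat.le_floor
      rw [← hnzn]
      calc nz (pr a) = 1 * nz (pr a) := (one_mul _).symm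
        _ ≤ (ct a : ℝ) ^ 2 * nz (pr a) := by
          apply mul_le_mul_of_nonneg_right _ (by linarith)
          exact one_le_pow₀ e2
        _ = nz a := e1.symm
        _ ≤ D := e4
  set bc : Finset ZI := (bl D).filter (fun a => IsCoprime a ((q0 : ℕ) : ZI)) with hbc
  have hbcm : ∀ a ∈ bc, a ∈ bl D ∧ IsCoprime a ((q0 : ℕ) : ZI) := fun a ha => mem_filter.mp ha
  have hfib : ∀ p ∈ Icc 1 ⌊D⌋₊ ×ˢ range I, ∑ a ∈ bc.filter (fun a => φ a = p), F a ≤
      C * (L * M / ((p.1 : ℝ) ^ 2 * v ^ 20)) := by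
    intro p hp
    rw [mem_product, mem_Icc] at hp
    obtain ⟨g, i⟩ := p
    simp only at hp ⊢
    have hg1 : 1 ≤ g := hp.1.1
    have hgr : (1 : ℝ) ≤ g := by exact_mod_cast hg1
    by_cases hemp : (bc.filter (fun a => φ a = (g, i))) = ∅
    · rw [hemp, sum_empty]
      positivity
    · obtain ⟨a1, ha1⟩ := nonempty_iff_ne_empty.mpr hemp
      have hlow : ∀ a ∈ bc.filter (fun a => φ a = (g, i)), (2 : ℝ) ^ i ≤ nz (pr a) ∧
          nz (pr a) ≤ 2 * (2 : ℝ) ^ i ∧ ct a = g := by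
        intro a ha
        rw [mem_filter] at ha
        obtain ⟨ha2, ha3⟩ := ha
        obtain ⟨e1, e2, e3⟩ := hfac a (hbcm a ha2).1
        have h4 : ct a = g := congrArg Prod.fst ha3
        have h5 : Nat.log 2 (Zsqrtd.norm (pr a)).natAbs = i := congrArg Prod.snd ha3
        rw [hnzn] at e3 ⊢
        have h6 : (Zsqrtd.norm (pr a)).natAbs ≠ 0 := by
          intro h
          rw [h] at e3
          norm_num at e3
        refine ⟨?_, ?_, h4⟩
        · have := Nat.pow_log_le_self 2 h6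
          rw [h5] at this
          exact_mod_cast this
        · have := Nat.lt_pow_succ_log_self (b := 2) (by norm_num) (Zsqrtd.norm (pr a)).natAbs
          rw [h5, Nat.succ_eq_add_one, pow_succ, mul_comm] at this
          exact_mod_cast this.le
      have hgD : (g : ℝ) ^ 2 * 2 ^ i * v ^ 100 ≤ L * M := by
        obtain ⟨e1, e2, e3⟩ := hlow a1 ha1
        have e4 := (hbcm a1 (mem_filter.mp ha1).1).1
        obtain ⟨f1, _, _⟩ := hfac a1 e4
        have e5 : nz a1 ≤ D := ((mem_bl _ _).mp e4).2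
        rw [e3] at f1
        calc (g : ℝ) ^ 2 * 2 ^ i * v ^ 100 ≤ (g : ℝ) ^ 2 * nz (pr a1) * v ^ 100 := by gcongr
          _ = nz a1 * v ^ 100 := by rw [f1]
          _ ≤ D * v ^ 100 := by gcongr
          _ ≤ L * M := hDLM
      have hgq : IsCoprime (g : ℤ) (q0 : ℤ) := by
        have e4 := (hbcm a1 (mem_filter.mp ha1).1).2
        have e5 := ((mem_bl _ _).mp (hbcm a1 (mem_filter.mp ha1).1).1).1
        obtain ⟨f1, _, _⟩ := pr_spec e5
        rw [(hlow a1 ha1).2.2] at f1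
        rw [f1] at e4
        obtain ⟨x, y, hxy⟩ := e4.of_mul_left_left
        refine ⟨x.re, y.re, ?_⟩
        have h4 := congrArg Zsqrtd.re hxy
        simpa using h4
      obtain ⟨gb, y, hgby⟩ := hgq
      have hgb : (q0 : ℤ) ∣ gb * g - 1 := ⟨-y, by linear_combination hgby⟩
      have hbb := hb M L (2 ^ i) g (gb * m0) (fun l => lam (g * l)) hM hL hLM' (one_le_pow₀ (by norm_num)) hg1 hgD
        (fun l => hlam.1 _)
      refine le_trans ?_ hbb
      set G : ZI → ℝ := fun a => |∑ l ∈ Icc (1 : ℤ) ⌊L / g⌋, lam (g * l) *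
        (nmx q0 (gb * m0) (M / g) a l - 2 * (M / g) / (q0 * nz a))| with hG
      have hFG : ∀ a ∈ bc.filter (fun a => φ a = (g, i)), F a = G (pr a) := by
        intro a ha
        obtain ⟨_, _, e3⟩ := hlow a ha
        have ha0 : a ≠ 0 := ((mem_bl _ _).mp (hbcm _ (mem_filter.mp ha).1).1).1
        obtain ⟨f1, f2, _⟩ := pr_spec ha0
        rw [e3] at f1
        show |∑ l ∈ Icc 1 ⌊L⌋, lam l * (nmx q0 m0 M a l - 2 * M / q0 * (kap l a / nz a))| = _
        have h7 := sum_scalex hq m0 (pr a) g hg1 hgb f2 M L lam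
        rw [← f1] at h7
        rw [h7]
      have hinj : Set.InjOn pr (bc.filter (fun a => φ a = (g, i)) : Set ZI) := by
        intro a ha b hb' hab
        have ha' : a ∈ bc.filter (fun a => φ a = (g, i)) := ha
        have hb'' : b ∈ bc.filter (fun a => φ a = (g, i)) := hb'
        have ha0 : a ≠ 0 := ((mem_bl _ _).mp (hbcm _ (mem_filter.mp ha').1).1).1
        have hb0 : b ≠ 0 := ((mem_bl _ _).mp (hbcm _ (mem_filter.mp hb'').1).1).1
        rw [(pr_spec ha0).1, (pr_spec hb0).1, (hlow a ha').2.2, (hlow b hb'').2.2, hab]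
      rw [sum_congr rfl hFG, ← sum_image (f := G) hinj]
      apply sum_le_sum_of_subset_of_nonneg
      · intro b hb'
        rw [mem_image] at hb'
        obtain ⟨a, ha, rfl⟩ := hb'
        obtain ⟨e1, e2, e3⟩ := hlow a ha
        have ha0 : a ≠ 0 := ((mem_bl _ _).mp (hbcm _ (mem_filter.mp ha).1).1).1
        obtain ⟨f1, f2, f3⟩ := pr_spec ha0
        have e4 := (hbcm a (mem_filter.mp ha).1).2
        rw [f1] at e4
        unfold Abx Pool.Agent.N458.GN.Ab
        rw [mem_filter, mem_filter, mem_bl]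
        exact ⟨⟨⟨f3, e2⟩, f2, e1⟩, e4.of_mul_left_right⟩
      · intro b _ _
        exact abs_nonneg _
  have hIb : (I : ℝ) ≤ (4 / δ + 1) * v := by
    have h2 : (Nat.log 2 ⌊D⌋₊ : ℝ) ≤ 4 / δ * v := by
      have hfl : 1 ≤ ⌊D⌋₊ := Nat.one_le_floor_iff _ |>.mpr hD
      have h3 : ((2 : ℝ) ^ (Nat.log 2 ⌊D⌋₊)) ≤ M ^ 2 := by
        have h4 := Nat.pow_log_le_self 2 (by omega : ⌊D⌋₊ ≠ 0)
        have h5 : ((2 : ℝ) ^ (Nat.log 2 ⌊D⌋₊)) ≤ (⌊D⌋₊ : ℝ) := by exact_mod_cast h4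
        have h6 : (⌊D⌋₊ : ℝ) ≤ D := Nat.floor_le (by linarith)
        linarith
      have h7 : (Nat.log 2 ⌊D⌋₊ : ℝ) * Real.log 2 ≤ 2 * Real.log M := by
        have := Real.log_le_log (by positivity) h3
        rw [Real.log_pow, Real.log_pow] at this
        exact_mod_cast this
      have h8 : Real.log M ≤ v / δ := Real.log_le_rpow_div hM0.le hδ0
      have h9 : (1 : ℝ) / 2 ≤ Real.log 2 := by
        have := Real.log_two_gt_d9
        linarith
      have h10 : (0 : ℝ) ≤ (Nat.log 2 ⌊D⌋₊ : ℝ) := Nat.cast_nonneg _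
      have h11 : (Nat.log 2 ⌊D⌋₊ : ℝ) * (1 / 2) ≤ (Nat.log 2 ⌊D⌋₊ : ℝ) * Real.log 2 :=
        mul_le_mul_of_nonneg_left h9 h10
      have h12 : 4 / δ * v = 4 * (v / δ) := by ring
      linarith
    have h13 : (I : ℝ) = (Nat.log 2 ⌊D⌋₊ : ℝ) + 1 := by
      rw [hI]
      push_cast
      ring
    rw [h13]
    calc (Nat.log 2 ⌊D⌋₊ : ℝ) + 1 ≤ 4 / δ * v + v := add_le_add h2 hv1
      _ = (4 / δ + 1) * v := by ring
  rw [← sum_fiberwise_of_maps_to (fun a ha => hmaps a (hbcm a ha).1)]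
  calc ∑ p ∈ Icc 1 ⌊D⌋₊ ×ˢ range I, ∑ a ∈ bc.filter (fun a => φ a = p), F a
      ≤ ∑ p ∈ Icc 1 ⌊D⌋₊ ×ˢ range I, C * (L * M / ((p.1 : ℝ) ^ 2 * v ^ 20)) := sum_le_sum hfib
    _ = (C * (L * M / v ^ 20)) * I * ∑ g ∈ Icc 1 ⌊D⌋₊, 1 / ((g : ℝ) ^ 2) := by
        rw [sum_product, mul_sum]
        apply sum_congr rfl
        intro g _
        simp only [sum_const, card_range, nsmul_eq_mul]
        rw [← div_div]
        ring
    _ ≤ (C * (L * M / v ^ 20)) * ((4 / δ + 1) * v) * 2 := by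
        apply mul_le_mul _ (sum_inv_sq _) _ (by positivity)
        · exact mul_le_mul_of_nonneg_left hIb (by positivity)
        · apply sum_nonneg
          intro g _
          positivity
    _ = C * 2 * (4 / δ + 1) * L * (M / v ^ 19) := by
        field_simp
    _ ≤ C * 2 * (4 / δ + 1) * L * M ^ (1 - ε / 10) := by
        apply mul_le_mul_of_nonneg_left _ (by positivity)
        rw [div_le_iff₀ (by positivity)]
        have h14 : M = M ^ (1 - ε / 10) * v ^ 10 := by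
          rw [hv, ← Real.rpow_natCast, ← Real.rpow_mul hM0.le, ← Real.rpow_add hM0, hδ]
          conv_lhs => rw [← Real.rpow_one M]
          congr 1
          push_cast
          ring
        calc M = M ^ (1 - ε / 10) * v ^ 10 := h14
          _ ≤ M ^ (1 - ε / 10) * v ^ 19 := by
            apply mul_le_mul_of_nonneg_left _ (by positivity)
            exact pow_le_pow_right₀ hv1 (by norm_num)

end Pool.Agent.N608.GNX.TX
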