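import Pool.Agent.N458.GN.TI
import Pool.Agent.N782.GN.StmX

/-!
# Project GN (helper782), task XTI: the classes modulo `q₀`, the large sieve
-/

set_option autoImplicit false

namespace Pool.Agent.N608.GNX.TX

open Finset
open Pool.Agent.N782.GN
open Pool.Agent.N458.GN

theorem cop_norm {a : ZI} {q0 : ℕ} (h : IsCoprime a ((q0 : ℕ) : ZI)) :
    IsCoprime (Zsqrtd.norm a) (q0 : ℤ) := by
  have h2 : IsCoprime (star a) ((q0 : ℕ) : ZI) := by
    obtain ⟨u, v, huv⟩ := h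
    refine ⟨star u, star v, ?_⟩
    have h5 := congrArg star huv
    rw [star_add, star_mul', star_mul', star_one, star_natCast] at h5
    exact h5
  have h3 := h.mul_left h2
  obtain ⟨u, v, huv⟩ := h3
  rw [← Zsqrtd.norm_eq_mul_conj] at huv
  have h4 := congrArg Zsqrtd.re huv
  refine ⟨u.re, v.re, ?_⟩
  simpa using h4

open Classical in
/-- the inverse of `N(a)` modulo `q₀` -/
noncomputable def dB (q0 : ℕ) (a : ZI) : ℤ :=
  if h : IsCoprime (Zsqrtd.norm a) (q0 : ℤ) then h.choose else 0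

open Classical in
/-- the inverse of `q₀` modulo `N(a)` -/
noncomputable def qB (q0 : ℕ) (a : ZI) : ℤ :=
  if h : IsCoprime (Zsqrtd.norm a) (q0 : ℤ) then h.choose_spec.choose else 0

theorem bez {q0 : ℕ} {a : ZI} (h : IsCoprime a ((q0 : ℕ) : ZI)) :
    dB q0 a * Zsqrtd.norm a + qB q0 a * (q0 : ℤ) = 1 := by
  have h1 := cop_norm h
  unfold dB qB
  rw [dif_pos h1, dif_pos h1]
  exact h1.choose_spec.choose_spec

/-- the class modulo `q₀ N(a)` -/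
noncomputable def xc (q0 : ℕ) (m0 : ℤ) (a : ZI) (l : ℤ) : ℤ :=
  (q0 : ℤ) * qB q0 a * (nu a * l) + Zsqrtd.norm a * dB q0 a * m0

/-- the root multiplied by the inverse of `q₀` -/
noncomputable def kp (q0 : ℕ) (a : ZI) : ℤ := qB q0 a * nu a

theorem cls_iff {q0 : ℕ} {a : ZI} (h : IsCoprime a ((q0 : ℕ) : ZI))
    (hν : ∀ l m : ℤ, a ∣ (⟨l, m⟩ : ZI) ↔ Zsqrtd.norm a ∣ m - nu a * l) (m0 l m : ℤ) :
    ((q0 : ℤ) ∣ m - m0 ∧ a ∣ (⟨l, m⟩ : ZI)) ↔ ((q0 : ℤ) * Zsqrtd.norm a) ∣ m - xc q0 m0 a l := by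
  have hb := bez h
  rw [hν]
  unfold xc
  constructor
  · rintro ⟨⟨j, hj⟩, ⟨k, hk⟩⟩
    refine ⟨qB q0 a * k + dB q0 a * j, ?_⟩
    linear_combination (-m) * hb + ((q0 : ℤ) * qB q0 a) * hk + (Zsqrtd.norm a * dB q0 a) * hj
  · rintro ⟨j, hj⟩
    constructor
    · refine ⟨Zsqrtd.norm a * j + qB q0 a * (nu a * l - m0), ?_⟩
      linear_combination hj + m0 * hb
    · refine ⟨q0 * j + dB q0 a * (m0 - nu a * l), ?_⟩
      linear_combination hj + (nu a * l) * hb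

theorem nmx_eq {q0 : ℕ} (hq : 1 ≤ q0) {a : ZI} (ha : a ≠ 0) (h : IsCoprime a ((q0 : ℕ) : ZI))
    (hν : ∀ l m : ℤ, a ∣ (⟨l, m⟩ : ZI) ↔ Zsqrtd.norm a ∣ m - nu a * l) {T : ℝ} (hT : 0 ≤ T) (m0 l : ℤ) :
    nmx q0 m0 T a l = ((⌊(T - xc q0 m0 a l) / (q0 * nz a)⌋ - ⌈(-T - xc q0 m0 a l) / (q0 * nz a)⌉ + 1 : ℤ) : ℝ) := by
  classical
  have hd0 := norm_pos_int ha
  have hqz : (0 : ℤ) < q0 := by exact_mod_cast hq
  set Q : ℤ := (q0 : ℤ) * Zsqrtd.norm a with hQ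
  have hd : 0 < Q := mul_pos hqz hd0
  have hnz : (q0 : ℝ) * nz a = ((Q : ℤ) : ℝ) := by rw [hQ]; unfold nz; push_cast; ring
  rw [hnz]
  have hdz : (0 : ℝ) < (Q : ℝ) := by exact_mod_cast hd
  set x : ℤ := xc q0 m0 a l with hx
  set t1 : ℝ := (-T - x) / (Q : ℝ) with ht1
  set t2 : ℝ := (T - x) / (Q : ℝ) with ht2
  have h12 : t1 ≤ t2 := by
    rw [ht1, ht2]
    apply div_le_div_of_nonneg_right _ hdz.le
    linarith
  have hcard : ((Icc ⌈-T⌉ ⌊T⌋).filter (fun m : ℤ => (q0 : ℤ) ∣ m - m0 ∧ a ∣ (⟨l, m⟩ : ZI))).card =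
      (Icc ⌈t1⌉ ⌊t2⌋).card := by
    symm
    apply card_nbij' (i := fun j => x + Q * j) (j := fun m => (m - x) / Q)
    · intro j hj
      simp only [coe_Icc, Set.mem_Icc, Int.ceil_le, Int.le_floor] at hj
      simp only [coe_filter, Set.mem_ofPred_eq, mem_Icc, Int.ceil_le, Int.le_floor]
      rw [ht1, ht2, div_le_iff₀ hdz, le_div_iff₀ hdz] at hj
      refine ⟨⟨?_, ?_⟩, ?_⟩
      · push_cast
        linarith [hj.1]
      · push_cast
        linarith [hj.2]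
      · rw [cls_iff h hν]
        exact ⟨j, by rw [← hx, ← hQ]; ring⟩
    · intro m hm
      simp only [coe_filter, Set.mem_ofPred_eq, mem_Icc, Int.ceil_le, Int.le_floor] at hm
      simp only [coe_Icc, Set.mem_Icc, Int.ceil_le, Int.le_floor]
      obtain ⟨⟨h1, h2⟩, h3⟩ := hm
      rw [cls_iff h hν] at h3
      obtain ⟨j, hj⟩ := h3
      rw [← hx, ← hQ] at hj
      rw [hj, Int.mul_ediv_cancel_left _ hd.ne']
      have hj' : (m : ℝ) - x = (Q : ℝ) * j := by exact_mod_cast hj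
      rw [ht1, ht2, div_le_iff₀ hdz, le_div_iff₀ hdz]
      constructor <;> linarith
    · intro j _
      simp only [add_sub_cancel_left]
      exact Int.mul_ediv_cancel_left _ hd.ne'
    · intro m hm
      simp only [coe_filter, Set.mem_ofPred_eq, mem_Icc, Int.ceil_le, Int.le_floor] at hm
      obtain ⟨_, h3⟩ := hm
      rw [cls_iff h hν, ← hx, ← hQ] at h3
      simp only
      rw [Int.mul_ediv_cancel' h3]
      ring
  unfold nmx
  rw [hcard, Int.card_Icc]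
  have h3 : ⌈t1⌉ ≤ ⌊t2⌋ + 1 := by
    have h4 : ⌈t1⌉ ≤ ⌊t1⌋ + 1 := Int.ceil_le_floor_add_one t1
    have h5 : ⌊t1⌋ ≤ ⌊t2⌋ := Int.floor_le_floor h12
    linarith
  have h6 : (((⌊t2⌋ + 1 - ⌈t1⌉).toNat : ℕ) : ℤ) = ⌊t2⌋ - ⌈t1⌉ + 1 := by
    rw [Int.toNat_of_nonneg (by linarith)]
    ring
  exact_mod_cast h6

/-- trivial bound -/
theorem nmx_triv {q0 : ℕ} (hq : 1 ≤ q0) {a : ZI} (ha : a ≠ 0) (h : IsCoprime a ((q0 : ℕ) : ZI))
    (hν : ∀ l m : ℤ, a ∣ (⟨l, m⟩ : ZI) ↔ Zsqrtd.norm a ∣ m - nu a * l) {T : ℝ} (hT : 0 ≤ T) (m0 l : ℤ) :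
    |nmx q0 m0 T a l - 2 * T / (q0 * nz a)| ≤ 1 := by
  rw [nmx_eq hq ha h hν hT m0 l]
  have hd := norm_pos_int ha
  have hdz : 0 < nz a := by unfold nz; exact_mod_cast hd
  have hqz : (0 : ℝ) < q0 := by exact_mod_cast hq
  have h1 := Int.floor_le ((T - xc q0 m0 a l) / (q0 * nz a))
  have h2 := Int.lt_floor_add_one ((T - xc q0 m0 a l) / (q0 * nz a))
  have h3 := Int.le_ceil ((-T - xc q0 m0 a l) / (q0 * nz a))
  have h4 := Int.ceil_lt_add_one ((-T - xc q0 m0 a l) / (q0 * nz a))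
  have h5 : 2 * T / (q0 * nz a) = (T - xc q0 m0 a l) / (q0 * nz a) - (-T - xc q0 m0 a l) / (q0 * nz a) := by
    field_simp
    ring
  rw [h5, abs_le]
  push_cast
  constructor <;> linarith

theorem xc_div {q0 : ℕ} (hq : 1 ≤ q0) {a : ZI} (ha : a ≠ 0) (m0 l : ℤ) (T : ℝ) :
    (T - xc q0 m0 a l) / (q0 * nz a) = T / (q0 * nz a) - (dB q0 a * m0 : ℤ) / q0 - kp q0 a * l / nz a := by
  have hd := norm_pos_int ha
  have hdz : (0 : ℝ) < ((Zsqrtd.norm a : ℤ) : ℝ) := by exact_mod_cast hd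
  have hqz : (0 : ℝ) < q0 := by exact_mod_cast hq
  unfold xc kp nz
  push_cast
  field_simp
  ring

/-- the sum over the residue classes -/
theorem resid (q0 : ℕ) (hq : 1 ≤ q0) (N : ℕ) {R : Type*} [AddCommMonoid R] (F : ℤ → R) :
    ∑ n ∈ Icc (-(N : ℤ)) N, F n = ∑ u ∈ range q0, ∑ n1 ∈ Icc (-(N : ℤ)) N,
      if (q0 : ℤ) * n1 + u ∈ Icc (-(N : ℤ)) N then F ((q0 : ℤ) * n1 + u) else 0 := by
  classical
  rw [← sum_product' (f := fun (u : ℕ) (n1 : ℤ) =>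
    if (q0 : ℤ) * n1 + u ∈ Icc (-(N : ℤ)) N then F ((q0 : ℤ) * n1 + u) else 0), ← sum_filter]
  have hqz : (0 : ℤ) < q0 := by exact_mod_cast hq
  have hN0 : (0 : ℤ) ≤ N := Int.natCast_nonneg N
  apply sum_nbij' (i := fun n : ℤ => ((n % (q0 : ℤ)).toNat, n / (q0 : ℤ))) (j := fun p => (q0 : ℤ) * p.2 + p.1)
  · intro n hn
    rw [mem_Icc] at hn
    have h1 := Int.emod_nonneg n hqz.ne'
    have h2 := Int.emod_lt_of_pos n hqz
    have h3 := Int.mul_ediv_add_emod n (q0 : ℤ)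
    rw [mem_filter, mem_product, mem_range, mem_Icc, mem_Icc]
    simp only [Int.toNat_of_nonneg h1, h3]
    refine ⟨⟨?_, ?_, ?_⟩, hn⟩
    · omega
    · rw [Int.le_ediv_iff_mul_le hqz]
      nlinarith
    · have h4 : n / (q0 : ℤ) < N + 1 := by
        rw [Int.ediv_lt_iff_lt_mul hqz]
        nlinarith
      omega
  · intro p hp
    rw [mem_filter] at hp
    exact hp.2
  · intro n hn
    have h1 := Int.emod_nonneg n hqz.ne'
    simp only [Int.toNat_of_nonneg h1]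
    exact Int.mul_ediv_add_emod n (q0 : ℤ)
  · intro p hp
    rw [mem_filter, mem_product, mem_range] at hp
    obtain ⟨⟨h1, -⟩, -⟩ := hp
    obtain ⟨u, n1⟩ := p
    simp only at h1 ⊢
    have h2 : ((q0 : ℤ) * n1 + u) % (q0 : ℤ) = u := by
      rw [Int.add_comm, Int.add_mul_emod_self_left]
      exact Int.emod_eq_of_lt (by omega) (by omega)
    have h3 : ((q0 : ℤ) * n1 + u) / (q0 : ℤ) = n1 := by
      rw [Int.add_comm, Int.add_mul_ediv_left _ _ hqz.ne', Int.ediv_eq_zero_of_lt (by omega) (by omega)]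
      ring
    rw [h2, h3]
    simp
  · intro n hn
    have h1 := Int.emod_nonneg n hqz.ne'
    simp only [Int.toNat_of_nonneg h1]
    rw [Int.mul_ediv_add_emod n (q0 : ℤ)]

open Classical in
/-- the large sieve with the inverse of `q₀` -/
theorem rlx (q0 : ℕ) (hq : 1 ≤ q0) (CR : ℝ) (hCR : 0 < CR) (hR : RL CR) (D : ℝ) (N : ℕ) (α : ℤ → ℂ)
    (hD : 1 ≤ D) (hN : 1 ≤ N) :
    ∑ a ∈ (bl D).filter (fun a => ct a = 1 ∧ IsCoprime a ((q0 : ℕ) : ZI)),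
      ‖∑ n ∈ Icc (-(N : ℤ)) N, α n * ee (n * kp q0 a / nz a)‖ ^ 2 ≤
      (q0 * CR) * (D + N) * Real.log (D + 2) * ∑ n ∈ Icc (-(N : ℤ)) N, ‖α n‖ ^ 2 := by
  set β : ℕ → ℤ → ℂ := fun u n1 => if (q0 : ℤ) * n1 + u ∈ Icc (-(N : ℤ)) N then α ((q0 : ℤ) * n1 + u) else 0 with hβ
  have hpt : ∀ a ∈ (bl D).filter (fun a => ct a = 1 ∧ IsCoprime a ((q0 : ℕ) : ZI)),
      ‖∑ n ∈ Icc (-(N : ℤ)) N, α n * ee (n * kp q0 a / nz a)‖ ^ 2 ≤
      q0 * ∑ u ∈ range q0, ‖∑ n1 ∈ Icc (-(N : ℤ)) N, β u n1 * ee (n1 * nu a / nz a)‖ ^ 2 := by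
    intro a ha
    rw [mem_filter, mem_bl] at ha
    obtain ⟨⟨ha0, -⟩, -, hac⟩ := ha
    have hb := bez hac
    have hd := norm_pos_int ha0
    have hdz : (0 : ℝ) < ((Zsqrtd.norm a : ℤ) : ℝ) := by exact_mod_cast hd
    have h1 : ∑ n ∈ Icc (-(N : ℤ)) N, α n * ee (n * kp q0 a / nz a) =
        ∑ u ∈ range q0, ee (u * kp q0 a / nz a) * ∑ n1 ∈ Icc (-(N : ℤ)) N, β u n1 * ee (n1 * nu a / nz a) := by
      rw [resid q0 hq N (fun n => α n * ee (n * kp q0 a / nz a))]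
      apply sum_congr rfl
      intro u _
      rw [mul_sum]
      apply sum_congr rfl
      intro n1 _
      rw [hβ]
      simp only
      split_ifs with hc
      · have h2 : ((((q0 : ℤ) * n1 + (u : ℤ) : ℤ) : ℝ) * kp q0 a / nz a) =
            (u * kp q0 a / nz a) + (n1 * nu a / nz a) + ((-(n1 * dB q0 a * nu a) : ℤ) : ℝ) := by
          have hb' : (dB q0 a : ℝ) * ((Zsqrtd.norm a : ℤ) : ℝ) + (qB q0 a : ℝ) * (q0 : ℝ) = 1 := by exact_mod_cast hb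
          unfold kp nz
          push_cast
          field_simp
          linear_combination (n1 * nu a : ℝ) * hb'
        rw [h2, ee_add, ee_add, ee_int]
        ring
      · ring
    rw [h1]
    have h3 : ‖∑ u ∈ range q0, ee (u * kp q0 a / nz a) * ∑ n1 ∈ Icc (-(N : ℤ)) N, β u n1 * ee (n1 * nu a / nz a)‖ ≤
        ∑ u ∈ range q0, ‖∑ n1 ∈ Icc (-(N : ℤ)) N, β u n1 * ee (n1 * nu a / nz a)‖ := by
      refine (norm_sum_le _ _).trans (le_of_eq ?_)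
      apply sum_congr rfl
      intro u _
      rw [norm_mul, norm_ee, one_mul]
    have h4 := sq_sum_le_card_mul_sum_sq (s := range q0)
      (f := fun u => ‖∑ n1 ∈ Icc (-(N : ℤ)) N, β u n1 * ee (n1 * nu a / nz a)‖)
    rw [card_range] at h4
    exact (pow_le_pow_left₀ (norm_nonneg _) h3 2).trans h4
  refine (sum_le_sum hpt).trans ?_
  rw [← mul_sum, sum_comm]
  have hu : ∀ u ∈ range q0, ∑ a ∈ (bl D).filter (fun a => ct a = 1 ∧ IsCoprime a ((q0 : ℕ) : ZI)),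
      ‖∑ n1 ∈ Icc (-(N : ℤ)) N, β u n1 * ee (n1 * nu a / nz a)‖ ^ 2 ≤
      CR * (D + N) * Real.log (D + 2) * ∑ n1 ∈ Icc (-(N : ℤ)) N, ‖β u n1‖ ^ 2 := by
    intro u _
    refine le_trans ?_ (hR D N (β u) hD hN)
    apply sum_le_sum_of_subset_of_nonneg
    · intro a ha
      rw [mem_filter] at ha ⊢
      exact ⟨ha.1, ha.2.1⟩
    · intro a _ _
      positivity
  have hres := resid q0 hq N (fun n => ‖α n‖ ^ 2)
  have hβ2 : ∑ u ∈ range q0, ∑ n1 ∈ Icc (-(N : ℤ)) N, ‖β u n1‖ ^ 2 = ∑ n ∈ Icc (-(N : ℤ)) N, ‖α n‖ ^ 2 := by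
    rw [hres]
    apply sum_congr rfl
    intro u _
    apply sum_congr rfl
    intro n1 _
    rw [hβ]
    simp only
    split_ifs <;> simp
  calc (q0 : ℝ) * ∑ u ∈ range q0, ∑ a ∈ (bl D).filter (fun a => ct a = 1 ∧ IsCoprime a ((q0 : ℕ) : ZI)),
      ‖∑ n1 ∈ Icc (-(N : ℤ)) N, β u n1 * ee (n1 * nu a / nz a)‖ ^ 2
      ≤ (q0 : ℝ) * ∑ u ∈ range q0, CR * (D + N) * Real.log (D + 2) * ∑ n1 ∈ Icc (-(N : ℤ)) N, ‖β u n1‖ ^ 2 := by
        apply mul_le_mul_of_nonneg_left (sum_le_sum hu) (Nat.cast_nonneg _)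
    _ = _ := by
        rw [← mul_sum, hβ2]
        ring

end Pool.Agent.N608.GNX.TX
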