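import Pool.Agent.N608.GNX.TXA

/-!
# Project GN (helper782), task XTI: one block, in a class modulo `q₀`
-/

set_option autoImplicit false

namespace Pool.Agent.N608.GNX.TX

open Finset
open Pool.Agent.N782.GN
open Pool.Agent.N458.GN

open Classical in
/-- the primitive Gaussian integers with norm in `[D, 2D]`, coprime to `q₀` -/
noncomputable def Abx (q0 : ℕ) (D : ℝ) : Finset ZI := (Ab D).filter (fun a => IsCoprime a ((q0 : ℕ) : ZI))

theorem mem_Abx {q0 : ℕ} {D : ℝ} {a : ZI} (ha : a ∈ Abx q0 D) :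
    a ∈ Ab D ∧ IsCoprime a ((q0 : ℕ) : ZI) ∧ a ≠ 0 ∧ ct a = 1 ∧ D ≤ nz a ∧ nz a ≤ 2 * D := by
  classical
  unfold Abx at ha
  rw [mem_filter] at ha
  have h1 := ha.1
  unfold Pool.Agent.N458.GN.Ab at h1
  rw [mem_filter, mem_bl] at h1
  exact ⟨ha.1, ha.2, h1.1.1, h1.2.1, h1.2.2, h1.1.2⟩

theorem card_Abx (q0 : ℕ) (D : ℝ) : ((Abx q0 D).card : ℝ) ≤ ((Ab D).card : ℝ) := by
  classical
  unfold Abx
  exact_mod_cast card_filter_le _ _

section Block

variable (q0 : ℕ) (H L0 : ℕ) (c : ℤ → ℝ) (P : ℝ → ℝ) (lam : ℤ → ℝ)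

/-- the exponential sum with the kernel -/
noncomputable def Wfx (a : ZI) (s : ℝ) : ℝ :=
  ∑ l ∈ Icc (1 : ℤ) (L0 : ℤ), lam l * (P (s - kp q0 a * l / nz a) - 1)

open Classical in
theorem Wfx_eq (h0 : c 0 = 1)
    (hP : ∀ t, (P t : ℂ) = ∑ h ∈ Icc (-(H : ℤ)) (H : ℤ), (c h : ℂ) * ee (h * t)) (a : ZI) (s : ℝ) :
    (Wfx q0 L0 P lam a s : ℂ) = ∑ n ∈ Icc (-((H * L0 : ℕ) : ℤ)) ((H * L0 : ℕ) : ℤ),
      al H L0 c lam s n * ee (n * kp q0 a / nz a) := by
  have h1 : ∀ t, ((P t : ℂ) - 1) = ∑ h ∈ (Icc (-(H : ℤ)) (H : ℤ)).filter (fun h => h ≠ 0),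
      (c h : ℂ) * ee (h * t) := by
    intro t
    rw [hP, ← sum_filter_add_sum_filter_not (Icc (-(H : ℤ)) (H : ℤ)) (fun h => h ≠ 0)]
    have h2 : (Icc (-(H : ℤ)) (H : ℤ)).filter (fun h => ¬ (h ≠ 0)) = {0} := by
      ext h
      simp only [mem_filter, mem_Icc, not_not, mem_singleton]
      constructor
      · exact fun h => h.2
      · intro h
        subst h
        simp
    rw [h2, sum_singleton]
    simp [ee_zero, h0]
  set PR := (Icc (1 : ℤ) (L0 : ℤ)) ×ˢ ((Icc (-(H : ℤ)) (H : ℤ)).filter (fun h => h ≠ 0)) with hPR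
  have hmaps : ∀ p ∈ PR, -(p.2 * p.1) ∈ Icc (-((H * L0 : ℕ) : ℤ)) ((H * L0 : ℕ) : ℤ) := by
    intro p hp
    rw [hPR, mem_product, mem_filter, mem_Icc, mem_Icc] at hp
    rw [mem_Icc]
    obtain ⟨⟨h2, h3⟩, ⟨h4, h5⟩, -⟩ := hp
    push_cast
    constructor <;> nlinarith
  have hfib := sum_fiberwise_of_maps_to (s := PR) (t := Icc (-((H * L0 : ℕ) : ℤ)) ((H * L0 : ℕ) : ℤ))
    (g := fun p => -(p.2 * p.1)) hmaps
    (fun p => (lam p.1 : ℂ) * (c p.2 : ℂ) * ee (p.2 * s) * ee (((-(p.2 * p.1) : ℤ) : ℝ) * kp q0 a / nz a))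
  calc (Wfx q0 L0 P lam a s : ℂ) = ∑ l ∈ Icc (1 : ℤ) (L0 : ℤ), (lam l : ℂ) *
        ∑ h ∈ (Icc (-(H : ℤ)) (H : ℤ)).filter (fun h => h ≠ 0), (c h : ℂ) * ee (h * (s - kp q0 a * l / nz a)) := by
        unfold Wfx
        push_cast
        apply sum_congr rfl
        intro l _
        rw [h1]
    _ = ∑ p ∈ PR, (lam p.1 : ℂ) * (c p.2 : ℂ) * ee (p.2 * s) * ee (((-(p.2 * p.1) : ℤ) : ℝ) * kp q0 a / nz a) := by
        rw [hPR, sum_product]
        apply sum_congr rfl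
        intro l _
        rw [mul_sum]
        apply sum_congr rfl
        intro h _
        have h2 : (h : ℝ) * (s - kp q0 a * l / nz a) = h * s + ((-(h * l) : ℤ) : ℝ) * kp q0 a / nz a := by
          push_cast
          ring
        rw [h2, ee_add]
        ring
    _ = _ := by
        rw [← hfib]
        apply sum_congr rfl
        intro n _
        unfold al
        rw [sum_mul]
        apply sum_congr rfl
        intro p hp
        rw [(mem_filter.mp hp).2]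

theorem continuous_Wfx (hPc : Continuous P) (a : ZI) : Continuous (Wfx q0 L0 P lam a) := by
  unfold Wfx
  apply continuous_finsetSum
  intro l _
  fun_prop

theorem Wfx_per (hper : Function.Periodic P 1) (a : ZI) (s : ℝ) (n : ℤ) :
    Wfx q0 L0 P lam a (s - n) = Wfx q0 L0 P lam a s := by
  unfold Wfx
  apply sum_congr rfl
  intro l _
  have h1 : s - n - kp q0 a * l / nz a = (s - kp q0 a * l / nz a) - n * 1 := by ring
  rw [h1, hper.sub_int_mul_eq n]

open Classical in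
/-- the bound for the sum of the exponential sums -/
theorem Wfx_sum (hq : 1 ≤ q0) (CR : ℝ) (hCR : 0 < CR) (hR : RL CR) (hL0 : 1 ≤ L0) (hH : 1 ≤ H) (h0 : c 0 = 1)
    (hP : ∀ t, (P t : ℂ) = ∑ h ∈ Icc (-(H : ℤ)) (H : ℤ), (c h : ℂ) * ee (h * t))
    (hlam : ∀ l, |lam l| ≤ 1) (hc : ∀ h, |c h| ≤ 1) (B : ℝ) (hB0 : 0 ≤ B)
    (hB : ∀ n : ℤ, n ≠ 0 → |n| ≤ ((H * L0 : ℕ) : ℤ) →
      (((Icc (1 : ℤ) (L0 : ℤ)).filter (fun l => l ∣ n)).card : ℝ) ≤ B) (D : ℝ) (hD : 1 ≤ D) (s : ℝ) :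
    ∑ a ∈ Abx q0 D, |Wfx q0 L0 P lam a s| ≤ Real.sqrt (((Ab D).card : ℝ) *
      ((q0 * CR) * (2 * D + (H * L0 : ℕ)) * Real.log (2 * D + 2) * ((2 * ((H * L0 : ℕ) : ℝ) + 1) * B ^ 2))) := by
  apply Real.le_sqrt_of_sq_le
  have h1 := sq_sum_le_card_mul_sum_sq (s := Abx q0 D) (f := fun a => |Wfx q0 L0 P lam a s|)
  refine h1.trans ?_
  have hlog : 0 ≤ Real.log (2 * D + 2) := Real.log_nonneg (by linarith)
  apply mul_le_mul (card_Abx q0 D) _ (sum_nonneg fun _ _ => by positivity) (Nat.cast_nonneg _)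
  have hHL : 1 ≤ H * L0 := Nat.mul_pos hH hL0
  have h2 := rlx q0 hq CR hCR hR (2 * D) (H * L0) (al H L0 c lam s) (by linarith) hHL
  have h3 : ∑ a ∈ Abx q0 D, |Wfx q0 L0 P lam a s| ^ 2 ≤
      ∑ a ∈ (bl (2 * D)).filter (fun a => ct a = 1 ∧ IsCoprime a ((q0 : ℕ) : ZI)),
        ‖∑ n ∈ Icc (-((H * L0 : ℕ) : ℤ)) ((H * L0 : ℕ) : ℤ), al H L0 c lam s n * ee (n * kp q0 a / nz a)‖ ^ 2 := by
    have h4 : ∀ a ∈ Abx q0 D, |Wfx q0 L0 P lam a s| ^ 2 = ‖∑ n ∈ Icc (-((H * L0 : ℕ) : ℤ)) ((H * L0 : ℕ) : ℤ),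
        al H L0 c lam s n * ee (n * kp q0 a / nz a)‖ ^ 2 := by
      intro a _
      rw [← Wfx_eq q0 H L0 c P lam h0 hP a s, Complex.norm_real, Real.norm_eq_abs]
    rw [sum_congr rfl h4]
    apply sum_le_sum_of_subset_of_nonneg
    · intro a ha
      obtain ⟨_, h5, h6, h7, h8, h9⟩ := mem_Abx ha
      rw [mem_filter, mem_bl]
      exact ⟨⟨h6, h9⟩, h7, h5⟩
    · intro a _ _
      positivity
  refine h3.trans (h2.trans ?_)
  apply mul_le_mul_of_nonneg_left _ (by positivity)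
  calc ∑ n ∈ Icc (-((H * L0 : ℕ) : ℤ)) ((H * L0 : ℕ) : ℤ), ‖al H L0 c lam s n‖ ^ 2
      ≤ ∑ n ∈ Icc (-((H * L0 : ℕ) : ℤ)) ((H * L0 : ℕ) : ℤ), B ^ 2 := by
        apply sum_le_sum
        intro n hn
        exact pow_le_pow_left₀ (norm_nonneg _) (al_norm H L0 c lam hlam hc B hB0 hB s n hn) 2
    _ = (2 * ((H * L0 : ℕ) : ℝ) + 1) * B ^ 2 := by
        rw [sum_const, nsmul_eq_mul, Int.card_Icc]
        congr 1
        have : (((((H * L0 : ℕ) : ℤ) + 1 - -((H * L0 : ℕ) : ℤ)).toNat : ℕ) : ℤ) = 2 * ((H * L0 : ℕ) : ℤ) + 1 := by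
          have h5 : (0 : ℤ) ≤ ((H * L0 : ℕ) : ℤ) := Int.natCast_nonneg _
          rw [Int.toNat_of_nonneg (by linarith)]
          ring
        exact_mod_cast this

/-- the oscillating part of a block -/
theorem oscx (hq : 1 ≤ q0) (K : ℝ) (hPc : Continuous P) (hper : Function.Periodic P 1) (m0 : ℤ) (D T : ℝ) (hD : 1 ≤ D)
    (hT : 0 ≤ T) (hK : ∀ s, ∑ a ∈ Abx q0 D, |Wfx q0 L0 P lam a s| ≤ K) :
    ∑ a ∈ Abx q0 D, |∑ l ∈ Icc (1 : ℤ) (L0 : ℤ), lam l *
      ((∫ t in ((-T - xc q0 m0 a l) / (q0 * nz a))..((T - xc q0 m0 a l) / (q0 * nz a)), P t) -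
      2 * T / (q0 * nz a))| ≤ 2 * T / D * (q0 * K) := by
  have hqr : (1 : ℝ) ≤ q0 := by exact_mod_cast hq
  have hint : ∀ a ∈ Abx q0 D, ∑ l ∈ Icc (1 : ℤ) (L0 : ℤ), lam l *
      ((∫ t in ((-T - xc q0 m0 a l) / (q0 * nz a))..((T - xc q0 m0 a l) / (q0 * nz a)), P t) - 2 * T / (q0 * nz a)) =
      ∫ s in (-(T / (q0 * nz a)))..(T / (q0 * nz a)), Wfx q0 L0 P lam a (s - (dB q0 a * m0 : ℤ) / q0) := by
    intro a ha
    obtain ⟨_, _, ha0, _, hnD, _⟩ := mem_Abx ha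
    have hnz : 0 < nz a := lt_of_lt_of_le (by linarith) hnD
    unfold Wfx
    rw [intervalIntegral.integral_finsetSum]
    · apply sum_congr rfl
      intro l _
      rw [intervalIntegral.integral_const_mul]
      congr 1
      rw [intervalIntegral.integral_sub]
      · have e0 : ∀ s : ℝ, P (s - (dB q0 a * m0 : ℤ) / q0 - kp q0 a * l / nz a) =
            P (s - ((dB q0 a * m0 : ℤ) / q0 + kp q0 a * l / nz a)) := by
          intro s
          congr 1
          ring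
        simp_rw [e0]
        rw [intervalIntegral.integral_comp_sub_right (fun x => P x) ((dB q0 a * m0 : ℤ) / q0 + kp q0 a * l / nz a)]
        simp only [intervalIntegral.integral_const, smul_eq_mul, mul_one]
        have e1 : -(T / (q0 * nz a)) - ((dB q0 a * m0 : ℤ) / q0 + kp q0 a * l / nz a) =
            (-T - xc q0 m0 a l) / (q0 * nz a) := by
          rw [xc_div hq ha0]
          ring
        have e2 : T / (q0 * nz a) - ((dB q0 a * m0 : ℤ) / q0 + kp q0 a * l / nz a) =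
            (T - xc q0 m0 a l) / (q0 * nz a) := by
          rw [xc_div hq ha0]
          ring
        rw [e1, e2]
        ring
      · apply Continuous.intervalIntegrable
        fun_prop
      · exact intervalIntegrable_const
    · intro l _
      apply Continuous.intervalIntegrable
      fun_prop
  have hS0 : 0 ≤ T / D := by positivity
  have hcW : ∀ (a : ZI) (u : ℝ), Continuous (fun s : ℝ => |Wfx q0 L0 P lam a (s - u)|) := by
    intro a u
    have := continuous_Wfx q0 L0 P lam hPc a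
    fun_prop
  have hcS : ∀ a : ZI, Continuous (fun s : ℝ => ∑ u ∈ range q0, |Wfx q0 L0 P lam a (s - (u : ℝ) / q0)|) := by
    intro a
    apply continuous_finsetSum
    intro u _
    exact hcW a _
  have hred : ∀ (a : ZI) (s : ℝ), |Wfx q0 L0 P lam a (s - (dB q0 a * m0 : ℤ) / q0)| ≤
      ∑ u ∈ range q0, |Wfx q0 L0 P lam a (s - (u : ℝ) / q0)| := by
    intro a s
    set z : ℤ := dB q0 a * m0 with hz
    have hqz : (0 : ℤ) < q0 := by exact_mod_cast hq
    have h1 := Int.emod_nonneg z hqz.ne'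
    have h2 := Int.emod_lt_of_pos z hqz
    have h3 := Int.mul_ediv_add_emod z (q0 : ℤ)
    have h4 : (((z % (q0 : ℤ)).toNat : ℕ) : ℤ) = z % (q0 : ℤ) := Int.toNat_of_nonneg h1
    have h5 : s - (z : ℝ) / q0 = (s - (((z % (q0 : ℤ)).toNat : ℕ) : ℝ) / q0) - ((z / (q0 : ℤ) : ℤ) : ℝ) := by
      have h6 : (z : ℝ) = q0 * ((z / (q0 : ℤ) : ℤ) : ℝ) + (((z % (q0 : ℤ)).toNat : ℕ) : ℝ) := by
        have h7 : z = q0 * (z / (q0 : ℤ)) + (((z % (q0 : ℤ)).toNat : ℕ) : ℤ) := by rw [h4]; exact h3.symm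
        exact_mod_cast h7
      have hq0 : (q0 : ℝ) ≠ 0 := by positivity
      rw [h6]
      field_simp
      ring
    rw [h5, Wfx_per q0 L0 P lam hper]
    exact single_le_sum (f := fun u : ℕ => |Wfx q0 L0 P lam a (s - (u : ℝ) / q0)|) (fun u _ => abs_nonneg _)
      (mem_range.mpr (by omega))
  have hb : ∀ a ∈ Abx q0 D, |∑ l ∈ Icc (1 : ℤ) (L0 : ℤ), lam l *
      ((∫ t in ((-T - xc q0 m0 a l) / (q0 * nz a))..((T - xc q0 m0 a l) / (q0 * nz a)), P t) - 2 * T / (q0 * nz a))| ≤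
      ∫ s in (-(T / D))..(T / D), ∑ u ∈ range q0, |Wfx q0 L0 P lam a (s - (u : ℝ) / q0)| := by
    intro a ha
    obtain ⟨_, _, ha0, _, hnD, _⟩ := mem_Abx ha
    have hnz : 0 < nz a := lt_of_lt_of_le (by linarith) hnD
    have hS1 : T / (q0 * nz a) ≤ T / D := by
      apply div_le_div_of_nonneg_left hT (by linarith)
      nlinarith
    have hS2 : 0 ≤ T / (q0 * nz a) := by positivity
    rw [hint a ha]
    calc |∫ s in (-(T / (q0 * nz a)))..(T / (q0 * nz a)), Wfx q0 L0 P lam a (s - (dB q0 a * m0 : ℤ) / q0)| ≤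
          ∫ s in (-(T / (q0 * nz a)))..(T / (q0 * nz a)), |Wfx q0 L0 P lam a (s - (dB q0 a * m0 : ℤ) / q0)| :=
          intervalIntegral.abs_integral_le_integral_abs (by linarith)
      _ ≤ ∫ s in (-(T / (q0 * nz a)))..(T / (q0 * nz a)), ∑ u ∈ range q0, |Wfx q0 L0 P lam a (s - (u : ℝ) / q0)| := by
          apply intervalIntegral.integral_mono_on (by linarith)
          · exact (hcW a _).intervalIntegrable _ _
          · exact (hcS a).intervalIntegrable _ _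
          · intro s _
            exact hred a s
      _ ≤ _ := by
        apply intervalIntegral.integral_mono_interval (by linarith) (by linarith) hS1
        · exact Filter.Eventually.of_forall (fun x => sum_nonneg fun _ _ => abs_nonneg _)
        · exact (hcS a).intervalIntegrable _ _
  refine (sum_le_sum hb).trans ?_
  rw [← intervalIntegral.integral_finsetSum]
  · calc ∫ s in (-(T / D))..(T / D), ∑ a ∈ Abx q0 D, ∑ u ∈ range q0, |Wfx q0 L0 P lam a (s - (u : ℝ) / q0)| ≤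
          ∫ s in (-(T / D))..(T / D), (q0 * K : ℝ) := by
          apply intervalIntegral.integral_mono_on (by linarith)
          · apply Continuous.intervalIntegrable
            apply continuous_finsetSum
            intro a _
            exact hcS a
          · exact intervalIntegrable_const
          · intro s _
            rw [sum_comm]
            calc ∑ u ∈ range q0, ∑ a ∈ Abx q0 D, |Wfx q0 L0 P lam a (s - (u : ℝ) / q0)| ≤ ∑ u ∈ range q0, K :=
                  sum_le_sum fun u _ => hK _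
              _ = q0 * K := by rw [sum_const, card_range, nsmul_eq_mul]
      _ = 2 * T / D * (q0 * K) := by
          rw [intervalIntegral.integral_const, smul_eq_mul]
          ring
  · intro a _
    exact (hcS a).intervalIntegrable _ _

open Classical in
/-- the points near the boundary -/
theorem nearx (hq : 1 ≤ q0)
    (hroot : ∀ a : ZI, ct a = 1 → ∀ l m : ℤ, a ∣ (⟨l, m⟩ : ZI) ↔ Zsqrtd.norm a ∣ m - nu a * l)
    (hPc : Continuous P) (hP0 : ∀ t, 0 ≤ P t) (hper : Function.Periodic P 1)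
    (hint : ∫ t in (0 : ℝ)..1, P t = 1) (w τ : ℝ) (hw : 0 < w) (hτ : 0 ≤ τ)
    (hdec : ∀ t : ℝ, (∀ n : ℤ, w ≤ |t - n|) → P t ≤ τ) (m0 : ℤ) (D T : ℝ) (hD : 1 ≤ D) (hT : 0 ≤ T) :
    ∑ a ∈ Abx q0 D, ∑ l ∈ Icc (1 : ℤ) (L0 : ℤ),
      |nmx q0 m0 T a l - ∫ t in ((-T - xc q0 m0 a l) / (q0 * nz a))..((T - xc q0 m0 a l) / (q0 * nz a)), P t| ≤
      ((Ab D).card : ℝ) * (L0 * τ) +
        3 * ∑ l ∈ Icc (1 : ℤ) (L0 : ℤ), ∑ m ∈ Em' T (2 * D * (q0 * w)), (dv (⟨l, m⟩ : ZI) : ℝ) := by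
  have hqr : (1 : ℝ) ≤ q0 := by exact_mod_cast hq
  have hq0p : (0 : ℝ) < q0 := by linarith
  have hpt : ∀ a ∈ Abx q0 D, ∀ l : ℤ,
      |nmx q0 m0 T a l - ∫ t in ((-T - xc q0 m0 a l) / (q0 * nz a))..((T - xc q0 m0 a l) / (q0 * nz a)), P t| ≤
      τ + 3 * ∑ m ∈ Em' T (2 * D * (q0 * w)), (if a ∣ (⟨l, m⟩ : ZI) then (1 : ℝ) else 0) := by
    intro a ha l
    obtain ⟨_, hcop, ha0, ha1, ha2, ha3⟩ := mem_Abx ha
    have hnz : 0 < nz a := by linarith
    have hqn : 0 < q0 * nz a := mul_pos hq0p hnz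
    have hE0 : 0 ≤ ∑ m ∈ Em' T (2 * D * (q0 * w)), (if a ∣ (⟨l, m⟩ : ZI) then (1 : ℝ) else 0) := by
      apply sum_nonneg
      intro m _
      split_ifs <;> norm_num
    rw [nmx_eq hq ha0 hcop (hroot a ha1) hT m0 l]
    set x : ℤ := xc q0 m0 a l with hx
    obtain ⟨c1, c2⟩ := count_int P hPc hP0 hper hint w τ hw hτ hdec ((-T - x) / (q0 * nz a)) ((T - x) / (q0 * nz a))
    have hone : ∀ m : ℤ, m ∈ Em' T (2 * D * (q0 * w)) → a ∣ (⟨l, m⟩ : ZI) →
        1 ≤ ∑ m ∈ Em' T (2 * D * (q0 * w)), (if a ∣ (⟨l, m⟩ : ZI) then (1 : ℝ) else 0) := by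
      intro m hm hdvd
      have h1 := single_le_sum (s := Em' T (2 * D * (q0 * w)))
        (f := fun m => if a ∣ (⟨l, m⟩ : ZI) then (1 : ℝ) else 0)
        (fun m _ => by show (0 : ℝ) ≤ if a ∣ (⟨l, m⟩ : ZI) then (1 : ℝ) else 0; split_ifs <;> norm_num) hm
      simp only [if_pos hdvd] at h1
      exact h1
    have hdvd : ∀ n : ℤ, a ∣ (⟨l, x + (q0 : ℤ) * Zsqrtd.norm a * n⟩ : ZI) := by
      intro n
      refine ((cls_iff hcop (hroot a ha1) m0 l _).mpr ?_).2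
      exact ⟨n, by rw [← hx]; ring⟩
    have hcast : (q0 : ℝ) * nz a = (((q0 : ℤ) * Zsqrtd.norm a : ℤ) : ℝ) := by unfold nz; push_cast; ring
    by_cases f1 : ∀ n : ℤ, w ≤ |(-T - x) / (q0 * nz a) - n|
    · by_cases f2 : ∀ n : ℤ, w ≤ |(T - x) / (q0 * nz a) - n|
      · have := c2 f1 f2
        linarith
      · push Not at f2
        obtain ⟨n, hn⟩ := f2
        have h1 : |T - x - q0 * nz a * n| < 2 * D * (q0 * w) := by
          have h2 : T - x - q0 * nz a * n = (q0 * nz a) * ((T - x) / (q0 * nz a) - n) := by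
            field_simp
          rw [h2, abs_mul, abs_of_pos hqn]
          calc (q0 * nz a) * |(T - x) / (q0 * nz a) - n| < (q0 * nz a) * w := mul_lt_mul_of_pos_left hn hqn
            _ = nz a * (q0 * w) := by ring
            _ ≤ 2 * D * (q0 * w) := mul_le_mul_of_nonneg_right ha3 (by positivity)
        have h3 := hone (x + (q0 : ℤ) * Zsqrtd.norm a * n) ?_ (hdvd n)
        · linarith
        · unfold Em'
          rw [mem_union]
          left
          rw [mem_Icc, Int.ceil_le, Int.le_floor]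
          rw [abs_lt, hcast] at h1
          push_cast at h1 ⊢
          constructor <;> linarith [h1.1, h1.2]
    · push Not at f1
      obtain ⟨n, hn⟩ := f1
      have h1 : |-T - x - q0 * nz a * n| < 2 * D * (q0 * w) := by
        have h2 : -T - x - q0 * nz a * n = (q0 * nz a) * ((-T - x) / (q0 * nz a) - n) := by
          field_simp
        rw [h2, abs_mul, abs_of_pos hqn]
        calc (q0 * nz a) * |(-T - x) / (q0 * nz a) - n| < (q0 * nz a) * w := mul_lt_mul_of_pos_left hn hqn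
          _ = nz a * (q0 * w) := by ring
          _ ≤ 2 * D * (q0 * w) := mul_le_mul_of_nonneg_right ha3 (by positivity)
      have h3 := hone (x + (q0 : ℤ) * Zsqrtd.norm a * n) ?_ (hdvd n)
      · linarith
      · unfold Em'
        rw [mem_union]
        right
        rw [mem_Icc, Int.ceil_le, Int.le_floor]
        rw [abs_lt, hcast] at h1
        push_cast at h1 ⊢
        constructor <;> linarith [h1.1, h1.2]
  have hdv : ∀ l ∈ Icc (1 : ℤ) (L0 : ℤ), ∀ m : ℤ,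
      ∑ a ∈ Abx q0 D, (if a ∣ (⟨l, m⟩ : ZI) then (1 : ℝ) else 0) ≤ dv (⟨l, m⟩ : ZI) := by
    intro l hl m
    rw [mem_Icc] at hl
    rw [← sum_filter, sum_const, nsmul_eq_mul, mul_one]
    unfold dv
    have hz : (⟨l, m⟩ : ZI) ≠ 0 := by
      intro h
      have := congrArg Zsqrtd.re h
      simp at this
      omega
    have : ((Abx q0 D).filter (fun a => a ∣ (⟨l, m⟩ : ZI))).card ≤
        ((bl (nz (⟨l, m⟩ : ZI))).filter (fun d => d ∣ (⟨l, m⟩ : ZI))).card := by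
      apply card_le_card
      intro a ha
      rw [mem_filter] at ha ⊢
      obtain ⟨_, _, ha0, _, _, _⟩ := mem_Abx ha.1
      refine ⟨?_, ha.2⟩
      rw [mem_bl]
      refine ⟨ha0, ?_⟩
      obtain ⟨b, hb⟩ := ha.2
      have hb0 : b ≠ 0 := by
        rintro rfl
        rw [mul_zero] at hb
        exact hz hb
      unfold nz
      have h1 : Zsqrtd.norm a ≤ Zsqrtd.norm (⟨l, m⟩ : ZI) := by
        rw [hb, Zsqrtd.norm_mul]
        have h2 := norm_pos_int ha0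
        have h3 := norm_pos_int hb0
        nlinarith
      exact_mod_cast h1
    exact_mod_cast this
  have hAn : (0 : ℝ) ≤ L0 * τ := by positivity
  calc ∑ a ∈ Abx q0 D, ∑ l ∈ Icc (1 : ℤ) (L0 : ℤ),
      |nmx q0 m0 T a l - ∫ t in ((-T - xc q0 m0 a l) / (q0 * nz a))..((T - xc q0 m0 a l) / (q0 * nz a)), P t|
      ≤ ∑ a ∈ Abx q0 D, ∑ l ∈ Icc (1 : ℤ) (L0 : ℤ),
        (τ + 3 * ∑ m ∈ Em' T (2 * D * (q0 * w)), (if a ∣ (⟨l, m⟩ : ZI) then (1 : ℝ) else 0)) := by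
        apply sum_le_sum
        intro a ha
        apply sum_le_sum
        intro l _
        exact hpt a ha l
    _ = ((Abx q0 D).card : ℝ) * (L0 * τ) + 3 * ∑ l ∈ Icc (1 : ℤ) (L0 : ℤ), ∑ m ∈ Em' T (2 * D * (q0 * w)),
        ∑ a ∈ Abx q0 D, (if a ∣ (⟨l, m⟩ : ZI) then (1 : ℝ) else 0) := by
        simp_rw [sum_add_distrib, sum_const, nsmul_eq_mul]
        congr 1
        · congr 1
          congr 1
          rw [Int.card_Icc]
          simp
        · simp_rw [← mul_sum]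
          congr 1
          rw [sum_comm]
          apply sum_congr rfl
          intro l _
          rw [sum_comm]
    _ ≤ _ := by
        apply add_le_add (mul_le_mul_of_nonneg_right (card_Abx q0 D) hAn)
        apply mul_le_mul_of_nonneg_left _ (by norm_num)
        apply sum_le_sum
        intro l hl
        apply sum_le_sum
        intro m _
        exact hdv l hl m

open Classical in
/-- one block -/
theorem blockx (hq : 1 ≤ q0) (CR : ℝ) (hCR : 0 < CR) (hR : RL CR)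
    (hroot : ∀ a : ZI, ct a = 1 → ∀ l m : ℤ, a ∣ (⟨l, m⟩ : ZI) ↔ Zsqrtd.norm a ∣ m - nu a * l)
    (k N : ℕ) (hk : 1 ≤ k) (hN : 1 ≤ N) (hL0 : 1 ≤ L0)
    (hlam : ∀ l, |lam l| ≤ 1) (B : ℝ) (hB0 : 0 ≤ B)
    (hB : ∀ n : ℤ, n ≠ 0 → |n| ≤ ((k * N * L0 : ℕ) : ℤ) →
      (((Icc (1 : ℤ) (L0 : ℤ)).filter (fun l => l ∣ n)).card : ℝ) ≤ B) (m0 : ℤ)
    (D T w : ℝ) (hD : 1 ≤ D) (hT : 0 ≤ T) (hw : 0 < w) :
    ∑ a ∈ Abx q0 D, |∑ l ∈ Icc (1 : ℤ) (L0 : ℤ), lam l * (nmx q0 m0 T a l - 2 * T / (q0 * nz a))| ≤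
      2 * T / D * Real.sqrt (((Ab D).card : ℝ) *
      ((q0 ^ 3 * CR) * (2 * D + (k * N * L0 : ℕ)) * Real.log (2 * D + 2) *
        ((2 * ((k * N * L0 : ℕ) : ℝ) + 1) * B ^ 2))) +
      (((Ab D).card : ℝ) * (L0 * (k * N * (q0 ^ (2 * k) * (1 / (2 * w * N)) ^ (2 * k)))) +
        3 * ∑ l ∈ Icc (1 : ℤ) (L0 : ℤ), ∑ m ∈ Em' T (2 * D * w), (dv (⟨l, m⟩ : ZI) : ℝ)) := by
  have hqr : (1 : ℝ) ≤ q0 := by exact_mod_cast hq
  have hq0p : (0 : ℝ) < q0 := by linarith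
  obtain ⟨c, P, hPc, hP0, hP, hc0, hc1, hdec⟩ := kernel k hk N hN
  have hper : Function.Periodic P 1 := by
    intro t
    have : (P (t + 1) : ℂ) = (P t : ℂ) := by
      rw [hP, hP]
      apply sum_congr rfl
      intro h _
      rw [ee_periodic_int]
    exact_mod_cast this
  have hint := int_trig (k * N) c P hc0 hP
  have hH : 1 ≤ k * N := Nat.mul_pos hk hN
  have hW := Wfx_sum q0 (k * N) L0 c P lam hq CR hCR hR hL0 hH hc0 hP hlam hc1 B hB0 hB D hD
  have h1 := oscx q0 L0 P lam hq _ hPc hper m0 D T hD hT hW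
  have hsq : (q0 : ℝ) * Real.sqrt (((Ab D).card : ℝ) *
      ((q0 * CR) * (2 * D + (k * N * L0 : ℕ)) * Real.log (2 * D + 2) *
        ((2 * ((k * N * L0 : ℕ) : ℝ) + 1) * B ^ 2))) =
      Real.sqrt (((Ab D).card : ℝ) *
      ((q0 ^ 3 * CR) * (2 * D + (k * N * L0 : ℕ)) * Real.log (2 * D + 2) *
        ((2 * ((k * N * L0 : ℕ) : ℝ) + 1) * B ^ 2))) := by
    rw [← Real.sqrt_sq hq0p.le, ← Real.sqrt_mul (by positivity)]
    rw [Real.sqrt_sq hq0p.le]
    congr 1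
    ring
  rw [hsq] at h1
  set w' : ℝ := w / q0 with hw'
  have hw'p : 0 < w' := by positivity
  have hww : (q0 : ℝ) * w' = w := by rw [hw']; field_simp
  have hτ : 0 ≤ k * N * (1 / (2 * w' * N)) ^ (2 * k) := by positivity
  have h2 := nearx q0 L0 P hq hroot hPc hP0 hper hint w' _ hw'p hτ (fun t ht => hdec w' t hw'p ht) m0 D T hD hT
  rw [hww] at h2
  have hpw : (1 / (2 * w' * N)) ^ (2 * k) = (q0 : ℝ) ^ (2 * k) * (1 / (2 * w * N)) ^ (2 * k) := by
    rw [← mul_pow]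
    congr 1
    have hNp : (0 : ℝ) < N := by exact_mod_cast hN
    rw [hw']
    field_simp
  rw [hpw] at h2
  refine le_trans ?_ (add_le_add h1 h2)
  rw [← sum_add_distrib]
  apply sum_le_sum
  intro a _
  have h3 : ∑ l ∈ Icc (1 : ℤ) (L0 : ℤ), lam l * (nmx q0 m0 T a l - 2 * T / (q0 * nz a)) =
      ∑ l ∈ Icc (1 : ℤ) (L0 : ℤ), lam l *
        ((∫ t in ((-T - xc q0 m0 a l) / (q0 * nz a))..((T - xc q0 m0 a l) / (q0 * nz a)), P t) -
        2 * T / (q0 * nz a)) + ∑ l ∈ Icc (1 : ℤ) (L0 : ℤ), lam l *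
        (nmx q0 m0 T a l - ∫ t in ((-T - xc q0 m0 a l) / (q0 * nz a))..((T - xc q0 m0 a l) / (q0 * nz a)), P t) := by
    rw [← sum_add_distrib]
    apply sum_congr rfl
    intro l _
    ring
  rw [h3]
  refine (abs_add_le _ _).trans (add_le_add le_rfl ?_)
  refine (abs_sum_le_sum_abs _ _).trans ?_
  apply sum_le_sum
  intro l _
  rw [abs_mul]
  exact (mul_le_mul_of_nonneg_right (hlam l) (abs_nonneg _)).trans (le_of_eq (one_mul _))

end Block

/-- the trivial bound for a block -/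
theorem block_trivx {q0 : ℕ} (hq : 1 ≤ q0)
    (hroot : ∀ a : ZI, ct a = 1 → ∀ l m : ℤ, a ∣ (⟨l, m⟩ : ZI) ↔ Zsqrtd.norm a ∣ m - nu a * l)
    (L0 : ℕ) (lam : ℤ → ℝ) (hlam : ∀ l, |lam l| ≤ 1) (m0 : ℤ) (D T : ℝ) (hD : 1 ≤ D) (hT : 0 ≤ T) :
    ∑ a ∈ Abx q0 D, |∑ l ∈ Icc (1 : ℤ) (L0 : ℤ), lam l * (nmx q0 m0 T a l - 2 * T / (q0 * nz a))| ≤ 18 * D * L0 := by
  classical
  have h1 : ∀ a ∈ Abx q0 D, |∑ l ∈ Icc (1 : ℤ) (L0 : ℤ), lam l * (nmx q0 m0 T a l - 2 * T / (q0 * nz a))| ≤ L0 := by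
    intro a ha
    obtain ⟨_, hcop, ha0, ha1, _, _⟩ := mem_Abx ha
    refine (abs_sum_le_sum_abs _ _).trans ?_
    have h2 : ∀ l ∈ Icc (1 : ℤ) (L0 : ℤ), |lam l * (nmx q0 m0 T a l - 2 * T / (q0 * nz a))| ≤ 1 := by
      intro l _
      rw [abs_mul]
      calc |lam l| * |nmx q0 m0 T a l - 2 * T / (q0 * nz a)| ≤ 1 * 1 :=
            mul_le_mul (hlam l) (nmx_triv hq ha0 hcop (hroot a ha1) hT m0 l) (abs_nonneg _) zero_le_one
        _ = 1 := one_mul 1
    refine (sum_le_sum h2).trans ?_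
    rw [sum_const, nsmul_eq_mul, mul_one, Int.card_Icc]
    simp
  refine (sum_le_sum h1).trans ?_
  rw [sum_const, nsmul_eq_mul]
  exact mul_le_mul_of_nonneg_right ((card_Abx q0 D).trans (card_Ab D hD)) (Nat.cast_nonneg _)

end Pool.Agent.N608.GNX.TX
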