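import Pool.Agent.N608.GNX.TXB

/-!
# Project GN (helper782), task XTI: the bound for one block (adapted from helper458's TIE)
-/

set_option autoImplicit false

namespace Pool.Agent.N608.GNX.TX

open Finset
open Pool.Agent.N782.GN
open Pool.Agent.N458.GN

theorem blockboundx {q0 : ℕ} (hq : 1 ≤ q0) (hDVB : S_DVB) (CR : ℝ) (hCR : 0 < CR) (hR : RL CR)
    (hroot : ∀ a : ZI, ct a = 1 → ∀ l m : ℤ, a ∣ (⟨l, m⟩ : ZI) ↔ Zsqrtd.norm a ∣ m - nu a * l)
    (ε : ℝ) (hε0 : 0 < ε) : ∃ C : ℝ, 0 < C ∧ ∀ (M L D : ℝ) (g : ℕ) (m0 : ℤ) (lam : ℤ → ℝ), 2 ≤ M → 1 ≤ L →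
      L * (M ^ (ε / 100)) ^ 100 ≤ M → 1 ≤ D → 1 ≤ g → (g : ℝ) ^ 2 * D * (M ^ (ε / 100)) ^ 100 ≤ L * M →
      (∀ l, |lam l| ≤ 1) →
      ∑ a ∈ Abx q0 D, |∑ l ∈ Icc (1 : ℤ) ⌊L / g⌋, lam l * (nmx q0 m0 (M / g) a l - 2 * (M / g) / (q0 * nz a))| ≤
        C * (L * M / ((g : ℝ) ^ 2 * (M ^ (ε / 100)) ^ 20)) := by
  classical
  set δ : ℝ := ε / 100 with hδ
  have hδ0 : 0 < δ := by positivity
  obtain ⟨Cd, hCd, hdv⟩ := hDVB δ hδ0
  set k : ℕ := ⌈16 / ε⌉₊ + 1 with hk
  have hk1 : 1 ≤ k := by omega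
  have hkr : 16 / ε ≤ (k : ℝ) := by
    have := Nat.le_ceil (16 / ε)
    rw [hk]
    push_cast
    linarith
  have hkpos : (1 : ℝ) ≤ k := by exact_mod_cast hk1
  have hqr : (1 : ℝ) ≤ q0 := by exact_mod_cast hq
  have hq0p : (0 : ℝ) < q0 := by linarith
  set CR' : ℝ := q0 ^ 3 * CR with hCR'
  have hCR'p : 0 < CR' := by positivity
  set QK : ℝ := (q0 : ℝ) ^ (2 * k) with hQK
  have hQKp : 0 < QK := by positivity
  set C1 : ℝ := 18 * CR' * (2 + 2 * k) * (4 / δ) * (6 * k) * (Cd ^ 2 * (2 * k) ^ 4) with hC1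
  have hC1pos : 0 < C1 := by positivity
  set C2 : ℝ := 2 * Real.sqrt C1 with hC2
  have hC2pos : 0 ≤ C2 := by positivity
  refine ⟨18 + C2 + 36 * k * QK + 300 * Cd, by positivity, ?_⟩
  intro M L D g m0 lam hM hL hLM hD hg hgD hlam
  set v : ℝ := M ^ δ with hv
  have hM0 : 0 < M := by linarith
  have hv1 : 1 ≤ v := Real.one_le_rpow (by linarith) hδ0.le
  have hvpos : 0 < v := by linarith
  have hgr : (1 : ℝ) ≤ g := by exact_mod_cast hg
  have hg0 : (0 : ℝ) < g := by linarith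
  have hv100 : v ^ 100 ≤ M := by
    calc v ^ 100 = 1 * v ^ 100 := (one_mul _).symm
      _ ≤ L * v ^ 100 := mul_le_mul_of_nonneg_right hL (by positivity)
      _ ≤ M := hLM
  have hvp : ∀ a b : ℕ, a ≤ b → v ^ a ≤ v ^ b := fun a b hab => pow_le_pow_right₀ hv1 hab
  have hvp1 : ∀ a : ℕ, 1 ≤ v ^ a := fun a => one_le_pow₀ hv1
  have hLleM : L ≤ M := by
    calc L = L * 1 := (mul_one _).symm
      _ ≤ L * v ^ 100 := mul_le_mul_of_nonneg_left (hvp1 100) (by linarith)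
      _ ≤ M := hLM
  set T : ℝ := M / g with hT
  have hTg : T * g = M := div_mul_cancel₀ M hg0.ne'
  have hTpos : 0 < T := by positivity
  have hTM : T ≤ M := div_le_self hM0.le hgr
  have hvT : v ^ 100 ≤ T := by
    rw [hT, le_div_iff₀ hg0]
    apply le_of_sq_le_sq _ hM0.le
    calc (v ^ 100 * g) ^ 2 = (g ^ 2 * 1 * v ^ 100) * v ^ 100 := by ring
      _ ≤ (g ^ 2 * D * v ^ 100) * v ^ 100 := by gcongr
      _ ≤ (L * M) * v ^ 100 := by gcongr
      _ = (L * v ^ 100) * M := by ring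
      _ ≤ M * M := by gcongr
      _ = M ^ 2 := by ring
  have hDM : (g : ℝ) ^ 2 * D ≤ M ^ 2 := by
    calc (g : ℝ) ^ 2 * D = g ^ 2 * D * 1 := (mul_one _).symm
      _ ≤ g ^ 2 * D * v ^ 100 := by gcongr; exact hvp1 100
      _ ≤ L * M := hgD
      _ ≤ M * M := by gcongr
      _ = M ^ 2 := by ring
  have hDM' : D ≤ M ^ 2 := by
    calc D = 1 ^ 2 * D := by ring
      _ ≤ (g : ℝ) ^ 2 * D := by gcongr
      _ ≤ M ^ 2 := hDM
  rw [Icc_floor (by positivity : (0 : ℝ) ≤ L / g)]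
  set L0 : ℕ := ⌊L / g⌋₊ with hL0def
  have hL0 : (L0 : ℝ) ≤ L / g := Nat.floor_le (by positivity)
  have hL0g : (L0 : ℝ) * g ≤ L := by
    rw [← le_div_iff₀ hg0]
    exact hL0
  set R : ℝ := L * M / ((g : ℝ) ^ 2 * v ^ 20) with hRdef
  have hRpos : 0 ≤ R := by positivity
  by_cases hL00 : L0 = 0
  · rw [hL00]
    simp only [Nat.cast_zero]
    have : Icc (1 : ℤ) 0 = ∅ := by decide
    rw [this]
    simp only [sum_empty, abs_zero, sum_const_zero]
    positivity
  have hL01 : 1 ≤ L0 := Nat.one_le_iff_ne_zero.mpr hL00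
  by_cases hcase : D * v ^ 50 ≤ T
  · have h1 := block_trivx hq hroot L0 lam hlam m0 D T hD hTpos.le
    refine h1.trans ?_
    have h2 : 18 * D * L0 ≤ 18 * R := by
      rw [hRdef, mul_div_assoc', le_div_iff₀ (by positivity)]
      calc 18 * D * L0 * (g ^ 2 * v ^ 20) = 18 * (L0 * g) * (D * v ^ 20) * g := by ring
        _ ≤ 18 * L * (D * v ^ 50) * g := by
          gcongr
          · norm_num
        _ ≤ 18 * L * T * g := by gcongr
        _ = 18 * (L * M) := by rw [mul_assoc, hTg]; ring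
    have h3 : 0 ≤ (C2 + 36 * k * QK + 300 * Cd) * R := by positivity
    have h4 : (18 + C2 + 36 * k * QK + 300 * Cd) * R = 18 * R + (C2 + 36 * k * QK + 300 * Cd) * R := by ring
    linarith
  push Not at hcase
  set N : ℕ := ⌈D * v ^ 50 / T⌉₊ with hN
  have hNlo : D * v ^ 50 / T ≤ N := Nat.le_ceil _
  have hq1 : 1 ≤ D * v ^ 50 / T := by
    rw [le_div_iff₀ hTpos]
    linarith
  have hNhi : (N : ℝ) ≤ 2 * (D * v ^ 50 / T) := by
    have := Nat.ceil_lt_add_one (by positivity : 0 ≤ D * v ^ 50 / T)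
    rw [← hN] at this
    linarith
  have hN1 : 1 ≤ N := by
    have : (1 : ℝ) ≤ N := hq1.trans hNlo
    exact_mod_cast this
  have hNr : (1 : ℝ) ≤ N := by exact_mod_cast hN1
  have hNpos : (0 : ℝ) < N := by linarith
  have hNT : D * v ^ 50 ≤ N * T := by
    rw [div_le_iff₀ hTpos] at hNlo
    exact hNlo
  have hNT2 : (N : ℝ) * T ≤ 2 * (D * v ^ 50) := by
    calc (N : ℝ) * T ≤ 2 * (D * v ^ 50 / T) * T := by gcongr
      _ = 2 * (D * v ^ 50) := by field_simp
  set w : ℝ := v ^ 25 / N with hw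
  have hwpos : 0 < w := by positivity
  have hwN : w * N = v ^ 25 := div_mul_cancel₀ _ hNpos.ne'
  set N0 : ℕ := k * N * L0 with hN0
  have hN0r : (N0 : ℝ) = k * N * L0 := by
    rw [hN0]
    push_cast
    ring
  have hN0M : (N0 : ℝ) * M ≤ 2 * k * (D * v ^ 50) * L := by
    rw [hN0r, ← hTg]
    calc (k : ℝ) * N * L0 * (T * g) = k * (N * T) * (L0 * g) := by ring
      _ ≤ k * (2 * (D * v ^ 50)) * L := by gcongr
      _ = _ := by ring
  have hN01 : 1 ≤ N0 := by
    rw [hN0]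
    exact Nat.mul_pos (Nat.mul_pos hk1 hN1) hL01
  have hN01r : (1 : ℝ) ≤ N0 := by exact_mod_cast hN01
  have hN0D : (N0 : ℝ) ≤ 2 * k * D := by
    have h1 : (N0 : ℝ) * M ≤ 2 * k * D * M := by
      refine hN0M.trans ?_
      calc 2 * k * (D * v ^ 50) * L = 2 * k * D * (L * v ^ 50) := by ring
        _ ≤ 2 * k * D * (L * v ^ 100) := by
          gcongr
          · norm_num
        _ ≤ 2 * k * D * M := by gcongr
    exact le_of_mul_le_mul_right h1 hM0
  set B : ℝ := Cd * ((2 * k) ^ 2 * v ^ 4) with hB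
  have hBpos : 0 ≤ B := by positivity
  have hδ1 : δ ≤ 1 := by
    -- from `v ^ 100 ≤ M`
    by_contra hcon
    push Not at hcon
    have h1 : M ^ (1 : ℝ) < M ^ δ := Real.rpow_lt_rpow_of_exponent_lt (by linarith) hcon
    rw [Real.rpow_one] at h1
    have h2 : v ^ 1 ≤ v ^ 100 := hvp 1 100 (by norm_num)
    rw [pow_one] at h2
    linarith
  have hrpow_le : ∀ x : ℝ, 1 ≤ x → x ^ δ ≤ x := by
    intro x hx
    calc x ^ δ ≤ x ^ (1 : ℝ) := Real.rpow_le_rpow_of_exponent_le hx hδ1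
      _ = x := Real.rpow_one x
  have hBn : ∀ n : ℤ, n ≠ 0 → |n| ≤ ((k * N * L0 : ℕ) : ℤ) →
      (((Icc (1 : ℤ) (L0 : ℤ)).filter (fun l => l ∣ n)).card : ℝ) ≤ B := by
    intro n hn hnN
    have h1 : |(n : ℝ)| ≤ 2 * k * D := by
      have h2 : |(n : ℝ)| ≤ N0 := by
        rw [hN0]
        exact_mod_cast hnN
      linarith
    refine (card_div δ Cd hδ0 hdv hCd L0 n hn _ h1).trans ?_
    rw [hB]
    apply mul_le_mul_of_nonneg_left _ hCd.le
    have h3 : (2 * (k : ℝ) * D) ^ 2 ≤ (2 * k) ^ 2 * M ^ 4 := by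
      calc (2 * (k : ℝ) * D) ^ 2 ≤ (2 * (k : ℝ) * M ^ 2) ^ 2 := by gcongr
        _ = (2 * k) ^ 2 * M ^ 4 := by ring
    calc ((2 * (k : ℝ) * D) ^ 2) ^ δ ≤ ((2 * (k : ℝ)) ^ 2 * M ^ 4) ^ δ :=
          Real.rpow_le_rpow (by positivity) h3 hδ0.le
      _ = ((2 * (k : ℝ)) ^ 2) ^ δ * (M ^ 4) ^ δ := Real.mul_rpow (by positivity) (by positivity)
      _ = ((2 * (k : ℝ)) ^ 2) ^ δ * v ^ 4 := by
          congr 1
          rw [hv, ← Real.rpow_natCast, ← Real.rpow_natCast, ← Real.rpow_mul hM0.le, ← Real.rpow_mul hM0.le]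
          congr 1
          ring
      _ ≤ (2 * (k : ℝ)) ^ 2 * v ^ 4 := by
          gcongr
          apply hrpow_le
          have : (1 : ℝ) ≤ 2 * k := by linarith
          exact one_le_pow₀ this
  have hblock := blockx q0 L0 lam hq CR hCR hR hroot k N hk1 hN1 hL01 hlam B hBpos hBn m0 D T w hD hTpos.le hwpos
  refine hblock.trans ?_
  -- the oscillating part
  have hlog : Real.log (2 * D + 2) ≤ 4 / δ * v ^ 2 := by
    have h1 : Real.log (2 * D + 2) ≤ (2 * D + 2) ^ δ / δ := Real.log_le_rpow_div (by linarith) hδ0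
    have h2 : (2 * D + 2) ^ δ ≤ 4 * v ^ 2 := by
      have h3 : 2 * D + 2 ≤ 4 * M ^ 2 := by linarith
      calc (2 * D + 2) ^ δ ≤ (4 * M ^ 2) ^ δ := Real.rpow_le_rpow (by linarith) h3 hδ0.le
        _ = 4 ^ δ * (M ^ 2) ^ δ := Real.mul_rpow (by norm_num) (by positivity)
        _ = 4 ^ δ * v ^ 2 := by
          congr 1
          rw [hv, ← Real.rpow_natCast, ← Real.rpow_natCast, ← Real.rpow_mul hM0.le, ← Real.rpow_mul hM0.le]
          congr 1
          ring
        _ ≤ 4 * v ^ 2 := by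
          gcongr
          exact hrpow_le 4 (by norm_num)
    calc Real.log (2 * D + 2) ≤ (2 * D + 2) ^ δ / δ := h1
      _ ≤ (4 * v ^ 2) / δ := by gcongr
      _ = 4 / δ * v ^ 2 := by ring
  have hAb := card_Ab D hD
  have hAb0 : (0 : ℝ) ≤ ((Ab D).card : ℝ) := Nat.cast_nonneg _
  have hlog0 : 0 ≤ Real.log (2 * D + 2) := Real.log_nonneg (by linarith)
  have hosc : 2 * T / D * Real.sqrt (((Ab D).card : ℝ) *
      (CR' * (2 * D + (k * N * L0 : ℕ)) * Real.log (2 * D + 2) * ((2 * ((k * N * L0 : ℕ) : ℝ) + 1) * B ^ 2))) ≤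
      C2 * R := by
    rw [← hN0]
    set y : ℝ := C2 * (L * D / (2 * g * v ^ 20)) with hy
    have hy0 : 0 ≤ y := by positivity
    have hX : ((Ab D).card : ℝ) * (CR' * (2 * D + N0) * Real.log (2 * D + 2) * ((2 * (N0 : ℝ) + 1) * B ^ 2)) ≤ y ^ 2 := by
      have h1 : ((Ab D).card : ℝ) * (CR' * (2 * D + N0) * Real.log (2 * D + 2) * ((2 * (N0 : ℝ) + 1) * B ^ 2)) ≤
          (18 * D) * (CR' * (2 * D + 2 * k * D) * (4 / δ * v ^ 2) * ((3 * (2 * k * (D * v ^ 50) * L / M)) * B ^ 2)) := by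
        have h2 : 2 * (N0 : ℝ) + 1 ≤ 3 * (2 * k * (D * v ^ 50) * L / M) := by
          have h3 : (N0 : ℝ) ≤ 2 * k * (D * v ^ 50) * L / M := by
            rw [le_div_iff₀ hM0]
            exact hN0M
          linarith
        gcongr
      refine h1.trans ?_
      have h4 : (18 * D) * (CR' * (2 * D + 2 * k * D) * (4 / δ * v ^ 2) * ((3 * (2 * k * (D * v ^ 50) * L / M)) * B ^ 2)) =
          C1 * (D ^ 3 * v ^ 60 * L / M) := by
        rw [hB, hC1]
        ring
      rw [h4]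
      have h5 : y ^ 2 = C1 * (L ^ 2 * D ^ 2 / (g ^ 2 * v ^ 40)) := by
        rw [hy, hC2]
        have h6 : Real.sqrt C1 ^ 2 = C1 := Real.sq_sqrt hC1pos.le
        calc (2 * Real.sqrt C1 * (L * D / (2 * g * v ^ 20))) ^ 2 =
            Real.sqrt C1 ^ 2 * (L ^ 2 * D ^ 2 / (g ^ 2 * v ^ 40)) := by
              field_simp
          _ = _ := by rw [h6]
      rw [h5]
      apply mul_le_mul_of_nonneg_left _ hC1pos.le
      rw [div_le_div_iff₀ hM0 (by positivity)]
      calc D ^ 3 * v ^ 60 * L * (g ^ 2 * v ^ 40) = D ^ 2 * L * (g ^ 2 * D * v ^ 100) := by ring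
        _ ≤ D ^ 2 * L * (L * M) := by gcongr
        _ = L ^ 2 * D ^ 2 * M := by ring
    have h7 := Real.sqrt_le_iff.mpr ⟨hy0, hX⟩
    calc _ ≤ 2 * T / D * y := by gcongr
      _ = C2 * R := by
        rw [hy, hRdef, hT]
        have hD0 : D ≠ 0 := by positivity
        field_simp
  -- the tail
  have htail : ((Ab D).card : ℝ) * (L0 * (k * N * (QK * (1 / (2 * w * N)) ^ (2 * k)))) ≤ 36 * k * QK * R := by
    have h1 : (1 / (2 * w * N)) ^ (2 * k) ≤ 1 / M ^ 8 := by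
      rw [div_pow, one_pow]
      apply one_div_le_one_div_of_le (by positivity)
      have h2 : M ^ 8 ≤ (v ^ 25) ^ (2 * k) := by
        rw [hv, ← Real.rpow_natCast, ← Real.rpow_natCast, ← Real.rpow_natCast, ← Real.rpow_mul hM0.le,
          ← Real.rpow_mul hM0.le]
        apply Real.rpow_le_rpow_of_exponent_le (by linarith)
        push_cast
        rw [hδ]
        rw [div_le_iff₀ hε0] at hkr
        have h3 : ε / 100 * (25 * (2 * (k : ℝ))) = k * ε / 2 := by ring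
        have h4 : ε / 100 * 25 * (2 * (k : ℝ)) = k * ε / 2 := by ring
        linarith
      refine h2.trans ?_
      apply pow_le_pow_left₀ (by positivity)
      rw [mul_assoc, hwN]
      linarith [hvp1 25]
    have hDv50 : D * v ^ 50 ≤ M * M := by
      calc D * v ^ 50 ≤ D * v ^ 100 := mul_le_mul_of_nonneg_left (hvp 50 100 (by norm_num)) (by linarith)
        _ = 1 * (D * v ^ 100) := (one_mul _).symm
        _ ≤ g ^ 2 * (D * v ^ 100) := mul_le_mul_of_nonneg_right (one_le_pow₀ hgr) (by positivity)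
        _ = g ^ 2 * D * v ^ 100 := by ring
        _ ≤ L * M := hgD
        _ ≤ M * M := mul_le_mul_of_nonneg_right hLleM hM0.le
    have hN2 : (N : ℝ) ≤ 2 * M * g := by
      have h3 : (N : ℝ) * M ≤ 2 * M * g * M := by
        calc (N : ℝ) * M = (N * T) * g := by rw [← hTg]; ring
          _ ≤ 2 * (D * v ^ 50) * g := mul_le_mul_of_nonneg_right hNT2 hg0.le
          _ ≤ 2 * (M * M) * g := mul_le_mul_of_nonneg_right (mul_le_mul_of_nonneg_left hDv50 (by norm_num)) hg0.le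
          _ = 2 * M * g * M := by ring
      exact le_of_mul_le_mul_right h3 hM0
    calc ((Ab D).card : ℝ) * (L0 * (k * N * (QK * (1 / (2 * w * N)) ^ (2 * k)))) ≤
        (18 * D) * (L / g * (k * (2 * M * g) * (QK * (1 / M ^ 8)))) := by gcongr
      _ = 36 * k * QK * L * (D / M ^ 7) := by field_simp; ring
      _ ≤ 36 * k * QK * L * (M / (g ^ 2 * v ^ 20)) := by
        apply mul_le_mul_of_nonneg_left _ (by positivity)
        rw [div_le_div_iff₀ (by positivity) (by positivity)]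
        calc D * (g ^ 2 * v ^ 20) = (g ^ 2 * D) * v ^ 20 := by ring
          _ ≤ M ^ 2 * M := by
            gcongr
            exact (hvp 20 100 (by norm_num)).trans hv100
          _ = M ^ 3 * 1 := by ring
          _ ≤ M ^ 3 * M ^ 5 := by
            gcongr
            exact one_le_pow₀ (by linarith)
          _ = M * M ^ 7 := by ring
      _ = 36 * k * QK * R := by rw [hRdef]; ring
  -- the points near the boundary
  have hΔ : 2 * D * w ≤ 2 * T / v ^ 25 := by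
    rw [hw, mul_div_assoc', div_le_div_iff₀ hNpos (by positivity)]
    calc 2 * D * v ^ 25 * v ^ 25 = 2 * (D * v ^ 50) := by ring
      _ ≤ 2 * (N * T) := by gcongr
      _ = 2 * T * N := by ring
  have hΔ0 : 0 ≤ 2 * D * w := by positivity
  have hΔT : 2 * D * w ≤ 2 * T := by
    refine hΔ.trans ?_
    exact div_le_self (by positivity) (hvp1 25)
  have hcard : ((Em' T (2 * D * w)).card : ℝ) ≤ 10 * (T / v ^ 25) := by
    have h1 := card_Em' T (2 * D * w) hΔ0
    have h2 : 1 ≤ T / v ^ 25 := by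
      rw [le_div_iff₀ (by positivity), one_mul]
      exact (hvp 25 100 (by norm_num)).trans hvT
    have h3 : 2 * T / v ^ 25 = 2 * (T / v ^ 25) := by ring
    linarith
  have hdvb : ∀ l ∈ Icc (1 : ℤ) (L0 : ℤ), ∀ m ∈ Em' T (2 * D * w), (dv (⟨l, m⟩ : ZI) : ℝ) ≤ Cd * (10 * v ^ 2) := by
    intro l hl m hm
    rw [mem_Icc] at hl
    have hz : (⟨l, m⟩ : ZI) ≠ 0 := by
      intro h
      have := congrArg Zsqrtd.re h
      simp at this
      omega
    refine (hdv _ hz).trans ?_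
    apply mul_le_mul_of_nonneg_left _ hCd.le
    have h1 : nz (⟨l, m⟩ : ZI) ≤ 10 * M ^ 2 := by
      rw [nz_eq]
      simp only
      have h2 : (l : ℝ) ≤ M := by
        have h3 : (l : ℝ) ≤ L0 := by exact_mod_cast hl.2
        have h4 : (L0 : ℝ) ≤ L := hL0.trans (div_le_self (by linarith) hgr)
        linarith
      have h5 : (0 : ℝ) ≤ l := by
        have : (0 : ℤ) ≤ l := by omega
        exact_mod_cast this
      have h6 : |(m : ℝ)| ≤ 3 * M := by
        unfold Em' at hm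
        rw [mem_union, mem_Icc, mem_Icc, Int.ceil_le, Int.le_floor, Int.ceil_le, Int.le_floor] at hm
        rw [abs_le]
        rcases hm with hm | hm
        · constructor <;> linarith [hm.1, hm.2]
        · constructor <;> linarith [hm.1, hm.2]
      have h7 : (m : ℝ) ^ 2 ≤ (3 * M) ^ 2 := by
        rw [← sq_abs (m : ℝ)]
        exact pow_le_pow_left₀ (abs_nonneg _) h6 2
      have h8 : (l : ℝ) ^ 2 ≤ M ^ 2 := pow_le_pow_left₀ h5 h2 2
      have h9 : (3 * M) ^ 2 = 9 * M ^ 2 := by ring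
      linarith
    calc (nz (⟨l, m⟩ : ZI)) ^ δ ≤ (10 * M ^ 2) ^ δ := Real.rpow_le_rpow (nz_nonneg _) h1 hδ0.le
      _ = 10 ^ δ * (M ^ 2) ^ δ := Real.mul_rpow (by norm_num) (by positivity)
      _ = 10 ^ δ * v ^ 2 := by
        congr 1
        rw [hv, ← Real.rpow_natCast, ← Real.rpow_natCast, ← Real.rpow_mul hM0.le, ← Real.rpow_mul hM0.le]
        congr 1
        ring
      _ ≤ 10 * v ^ 2 := by
        gcongr
        exact hrpow_le 10 (by norm_num)
  have hnear : 3 * ∑ l ∈ Icc (1 : ℤ) (L0 : ℤ), ∑ m ∈ Em' T (2 * D * w), (dv (⟨l, m⟩ : ZI) : ℝ) ≤ 300 * Cd * R := by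
    calc 3 * ∑ l ∈ Icc (1 : ℤ) (L0 : ℤ), ∑ m ∈ Em' T (2 * D * w), (dv (⟨l, m⟩ : ZI) : ℝ) ≤
        3 * ∑ l ∈ Icc (1 : ℤ) (L0 : ℤ), ∑ m ∈ Em' T (2 * D * w), Cd * (10 * v ^ 2) := by
          gcongr with l hl m hm
          exact hdvb l hl m hm
      _ = 3 * (L0 * (((Em' T (2 * D * w)).card : ℝ) * (Cd * (10 * v ^ 2)))) := by
          simp_rw [sum_const, nsmul_eq_mul]
          rw [Int.card_Icc]
          simp
      _ ≤ 3 * (L / g * ((10 * (T / v ^ 25)) * (Cd * (10 * v ^ 2)))) := by gcongr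
      _ = 300 * Cd * (L * M / (g ^ 2 * v ^ 23)) := by
          rw [hT]
          field_simp
          ring
      _ ≤ 300 * Cd * R := by
          rw [hRdef]
          gcongr
          · norm_num
  calc _ ≤ C2 * R + (36 * k * QK * R + 300 * Cd * R) := add_le_add hosc (add_le_add htail hnear)
    _ ≤ (18 + C2 + 36 * k * QK + 300 * Cd) * R := by
      have h4 : (18 + C2 + 36 * k * QK + 300 * Cd) * R = 18 * R + (C2 * R + (36 * k * QK * R + 300 * Cd * R)) := by ring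
      linarith

end Pool.Agent.N608.GNX.TX
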